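import Pool.Agent.H55.BM.Sym

/-!
# Uniqueness of the maximiser

If `x < y` are two maximisers on `[A, B]` then for rationals `x < q₁ < q₂ < y` the suprema of
`f + g` over the rationals of `[A, q₁]` and over those of `[q₂, B]` agree.  For fixed continuous `γ`
and a Brownian motion `b` the event `sup_[A,q₁] (b - b A + γ) = sup_[q₂,B] (b - b A + γ)` reads
`b q₂ - b q₁ = U - V`, `U = sup_[A,q₁] (b - b q₁ + γ)`, `V = sup_[q₂,B] (b - b q₂ + γ)`; by
`indep_middle` it is null (Gaussian laws have no atoms).  Fubini (`g` independent of `f`) and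
absolute continuity transfer this to `f`, `g`.
-/

open MeasureTheory ProbabilityTheory Filter Topology Set
open scoped ENNReal NNReal

namespace Pool.Agent.H55.BM

open Pool.Agent.H37.DL

theorem argmax_indep_eq {Ω : Type*} [MeasurableSpace Ω] {P : Measure Ω} [IsProbabilityMeasure P]
    {X Y : Ω → ℝ} (hX : Measurable X) (hY : Measurable Y) (h : IndepFun X Y P)
    (hatom : ∀ r, P.map X {r} = 0) : P {ω | X ω = Y ω} = 0 := by
  have h1 := (indepFun_iff_map_prod_eq_prod_map_map hY.aemeasurable hX.aemeasurable).1 h.symm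
  have hs : MeasurableSet {p : ℝ × ℝ | p.2 = p.1} :=
    measurableSet_eq_fun measurable_snd measurable_fst
  have h2 : P.map (fun ω => (Y ω, X ω)) {p | p.2 = p.1} = 0 := by
    rw [h1, Measure.measure_prod_null hs]
    refine Eventually.of_forall fun y => ?_
    have h3 : Prod.mk y ⁻¹' {p : ℝ × ℝ | p.2 = p.1} = {y} := by ext; simp
    simp only [h3, hatom, Pi.zero_apply]
  rw [Measure.map_apply (hY.prodMk hX) hs] at h2
  exact h2

/-- the rationals of `[A, B]` -/
abbrev RatIcc (A B : ℝ) : Type := {x : ℚ // A ≤ x ∧ (x : ℝ) ≤ B}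

/-- supremum over the rationals of `[A, B]` in `[A, q]` -/
noncomputable def supL {A B : ℝ} (q : ℝ) (h : RatIcc A B → ℝ) : ℝ :=
  ⨆ x : {x : RatIcc A B // (x.1 : ℝ) ≤ q}, h x.1

/-- supremum over the rationals of `[A, B]` in `[q, B]` -/
noncomputable def supR {A B : ℝ} (q : ℝ) (h : RatIcc A B → ℝ) : ℝ :=
  ⨆ x : {x : RatIcc A B // q ≤ (x.1 : ℝ)}, h x.1

theorem argmax_null {Ω : Type*} [MeasurableSpace Ω] {P : Measure Ω} [IsProbabilityMeasure P]
    {b : Ω → ℝ → ℝ} (hb : IsBM P b) {A B : ℝ} {q₁ q₂ : ℚ} (h1 : A ≤ q₁) (h12 : q₁ < q₂)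
    (h2 : (q₂ : ℝ) ≤ B) (γ : RatIcc A B → ℝ) (hγ : BddAbove (range γ)) :
    P {ω | supL q₁ (fun x : RatIcc A B => b ω x.1 - b ω A + γ x) =
      supR q₂ (fun x : RatIcc A B => b ω x.1 - b ω A + γ x)} = 0 := by
  have h12' : (q₁ : ℝ) < q₂ := by exact_mod_cast h12
  let U : ((Set.Iic (q₁ : ℝ) ⊕ Set.Ici (q₂ : ℝ)) → ℝ) → ℝ := fun p =>
    ⨆ x : {x : RatIcc A B // (x.1 : ℝ) ≤ q₁}, (p (Sum.inl ⟨x.1.1, x.2⟩) + γ x.1)
  let V : ((Set.Iic (q₁ : ℝ) ⊕ Set.Ici (q₂ : ℝ)) → ℝ) → ℝ := fun p =>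
    ⨆ x : {x : RatIcc A B // (q₂ : ℝ) ≤ x.1}, (p (Sum.inr ⟨x.1.1, x.2⟩) + γ x.1)
  have hU : Measurable U := Measurable.iSup fun x => (measurable_pi_apply _).add_const _
  have hV : Measurable V := Measurable.iSup fun x => (measurable_pi_apply _).add_const _
  have hI := (indep_middle hb h12'.le).comp (φ := id) (ψ := fun p => U p - V p) measurable_id
    (hU.sub hV)
  have hpm : Measurable (fun ω (p : Set.Iic (q₁ : ℝ) ⊕ Set.Ici (q₂ : ℝ)) =>
      Sum.elim (fun z : Set.Iic (q₁ : ℝ) => b ω z - b ω q₁)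
        (fun z : Set.Ici (q₂ : ℝ) => b ω z - b ω q₂) p) := by
    refine measurable_pi_lambda _ fun p => ?_
    rcases p with z | z
    · exact (hb.meas _).sub (hb.meas _)
    · exact (hb.meas _).sub (hb.meas _)
  have hatom : ∀ r, P.map (id ∘ fun ω => b ω q₂ - b ω q₁) {r} = 0 := by
    intro r
    rw [Function.id_comp, law_sub_lt hb h12']
    have : (2 * ((q₂ : ℝ) - q₁)).toNNReal ≠ 0 := by
      rw [ne_eq, Real.toNNReal_eq_zero, not_le]; linarith
    have := nullSingletonClass_gaussianReal (μ := 0) this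
    exact measure_singleton r
  have h3 := argmax_indep_eq (by
    exact measurable_id.comp ((hb.meas _).sub (hb.meas _))) ((hU.sub hV).comp hpm) hI hatom
  rw [← h3]
  congr 1
  ext ω
  simp only [mem_ofPred_eq, Function.comp_apply, id_eq, Pi.sub_apply]
  have hbd : BddAbove (b ω '' Icc A B) := (isCompact_Icc).bddAbove_image (hb.cont ω).continuousOn
  obtain ⟨M, hM⟩ := hbd
  obtain ⟨N, hN⟩ := hγ
  have hbU : ∀ c : ℝ, BddAbove (range fun x : {x : RatIcc A B // (x.1 : ℝ) ≤ q₁} =>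
      (b ω x.1.1 - c + γ x.1)) := by
    intro c
    refine ⟨M - c + N, ?_⟩
    rintro _ ⟨x, rfl⟩
    have := hM ⟨_, x.1.2, rfl⟩
    have := hN ⟨x.1, rfl⟩
    dsimp only
    linarith
  have hbV : ∀ c : ℝ, BddAbove (range fun x : {x : RatIcc A B // (q₂ : ℝ) ≤ x.1} =>
      (b ω x.1.1 - c + γ x.1)) := by
    intro c
    refine ⟨M - c + N, ?_⟩
    rintro _ ⟨x, rfl⟩
    have := hM ⟨_, x.1.2, rfl⟩
    have := hN ⟨x.1, rfl⟩
    dsimp only
    linarith
  have : Nonempty {x : RatIcc A B // (x.1 : ℝ) ≤ q₁} := ⟨⟨⟨q₁, h1, by linarith⟩, le_rfl⟩⟩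
  have : Nonempty {x : RatIcc A B // (q₂ : ℝ) ≤ x.1} := ⟨⟨⟨q₂, by linarith, h2⟩, le_rfl⟩⟩
  have e1 : supL q₁ (fun x : RatIcc A B => b ω x.1 - b ω A + γ x) =
      U (fun p => Sum.elim (fun z : Set.Iic (q₁ : ℝ) => b ω z - b ω q₁)
        (fun z : Set.Ici (q₂ : ℝ) => b ω z - b ω q₂) p) + (b ω q₁ - b ω A) := by
    simp only [U, supL, Sum.elim_inl]
    rw [ciSup_add (hbU _)]
    congr 1
    ext x
    ring
  have e2 : supR q₂ (fun x : RatIcc A B => b ω x.1 - b ω A + γ x) =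
      V (fun p => Sum.elim (fun z : Set.Iic (q₁ : ℝ) => b ω z - b ω q₁)
        (fun z : Set.Ici (q₂ : ℝ) => b ω z - b ω q₂) p) + (b ω q₂ - b ω A) := by
    simp only [V, supR, Sum.elim_inr]
    rw [ciSup_add (hbV _)]
    congr 1
    ext x
    ring
  rw [e1, e2]
  constructor
  · intro h; linarith
  · intro h; linarith

/-- the supremum over rationals in `[A, q]` is attained at a maximiser `x < q` -/
theorem supL_eq {A B q : ℝ} (hq : q ≤ B) {h : ℝ → ℝ} (hc : Continuous h) {x : ℝ} (hx : A ≤ x)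
    (hxq : x < q) (hm : ∀ z ∈ Set.Icc A B, h z ≤ h x) :
    supL q (fun z : RatIcc A B => h z.1) = h x := by
  have : Nonempty {x : RatIcc A B // (x.1 : ℝ) ≤ q} := by
    obtain ⟨r, h1, h2⟩ := exists_rat_btwn hxq
    exact ⟨⟨⟨r, by linarith, by linarith⟩, h2.le⟩⟩
  refine ciSup_eq_of_forall_le_of_forall_lt_exists_gt (fun z => hm _ z.1.2) fun w hw => ?_
  have h1 : ∀ᶠ z in 𝓝[>] x, w < h z := (hc.tendsto x |>.mono_left nhdsWithin_le_nhds).eventually
    (lt_mem_nhds hw)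
  obtain ⟨u, hu, hu'⟩ := (mem_nhdsGT_iff_exists_Ioo_subset' hxq).1 h1
  obtain ⟨r, h2, h3⟩ := exists_rat_btwn (show x < min u q from lt_min hu hxq)
  have h4 := lt_min_iff.1 h3
  exact ⟨⟨⟨r, by linarith, by linarith⟩, h4.2.le⟩, hu' ⟨h2, h4.1⟩⟩

theorem supR_eq {A B q : ℝ} (hq : A ≤ q) {h : ℝ → ℝ} (hc : Continuous h) {x : ℝ} (hx : x ≤ B)
    (hxq : q < x) (hm : ∀ z ∈ Set.Icc A B, h z ≤ h x) :
    supR q (fun z : RatIcc A B => h z.1) = h x := by
  have : Nonempty {x : RatIcc A B // q ≤ (x.1 : ℝ)} := by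
    obtain ⟨r, h1, h2⟩ := exists_rat_btwn hxq
    exact ⟨⟨⟨r, by linarith, by linarith⟩, h1.le⟩⟩
  refine ciSup_eq_of_forall_le_of_forall_lt_exists_gt (fun z => hm _ z.1.2) fun w hw => ?_
  have h1 : ∀ᶠ z in 𝓝[<] x, w < h z := (hc.tendsto x |>.mono_left nhdsWithin_le_nhds).eventually
    (lt_mem_nhds hw)
  obtain ⟨u, hu, hu'⟩ := (mem_nhdsLT_iff_exists_Ioo_subset' hxq).1 h1
  obtain ⟨r, h2, h3⟩ := exists_rat_btwn (show max u q < x from max_lt hu hxq)
  have h4 := max_lt_iff.1 h2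
  exact ⟨⟨⟨r, by linarith, by linarith⟩, h4.2.le⟩, hu' ⟨h4.1, h3⟩⟩

theorem unique_argmax {Ω Ω' : Type*} [MeasurableSpace Ω] {P : Measure Ω} [IsProbabilityMeasure P]
    [MeasurableSpace Ω'] {P' : Measure Ω'} [IsProbabilityMeasure P'] {b : Ω' → ℝ → ℝ}
    (hb : IsBM P' b) {f g : Ω → ℝ → ℝ} (hf : ∀ x, Measurable fun ω => f ω x)
    (hg : ∀ x, Measurable fun ω => g ω x) (hfc : ∀ ω, Continuous (f ω))
    (hgc : ∀ ω, Continuous (g ω)) (hind : IndepFun f g P) (A B : ℝ)
    (hac : P.map (fun ω (x : {x : ℚ // A ≤ x ∧ (x : ℝ) ≤ B}) => f ω x - f ω A) ≪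
      P'.map (fun ω (x : {x : ℚ // A ≤ x ∧ (x : ℝ) ≤ B}) => b ω x - b ω A)) :
    ∀ᵐ ω ∂P, ∀ x ∈ Set.Icc A B, ∀ y ∈ Set.Icc A B,
      (∀ z ∈ Set.Icc A B, f ω z + g ω z ≤ f ω x + g ω x) →
      (∀ z ∈ Set.Icc A B, f ω z + g ω z ≤ f ω y + g ω y) → x = y := by
  let F : Ω → (RatIcc A B → ℝ) := fun ω x => f ω x.1 - f ω A
  let G : Ω → (RatIcc A B → ℝ) := fun ω x => g ω x.1
  have hF : Measurable F := measurable_pi_lambda _ fun x => (hf _).sub (hf _)
  have hG : Measurable G := measurable_pi_lambda _ fun x => hg _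
  have hFG : IndepFun G F P := (hind.comp
    (φ := fun (u : ℝ → ℝ) (x : RatIcc A B) => u x.1 - u A)
    (ψ := fun (u : ℝ → ℝ) (x : RatIcc A B) => u x.1)
    (measurable_pi_lambda _ fun x => (measurable_pi_apply _).sub (measurable_pi_apply _))
    (measurable_pi_lambda _ fun x => (measurable_pi_apply _))).symm
  have hsm : ∀ q₁ q₂ : ℝ, MeasurableSet {p : (RatIcc A B → ℝ) × (RatIcc A B → ℝ) |
      supL q₁ (fun x => p.2 x + p.1 x) = supR q₂ (fun x => p.2 x + p.1 x)} := by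
    intro q₁ q₂
    refine measurableSet_eq_fun ?_ ?_
    · exact Measurable.iSup fun x => ((measurable_pi_apply _).comp measurable_snd).add
        ((measurable_pi_apply _).comp measurable_fst)
    · exact Measurable.iSup fun x => ((measurable_pi_apply _).comp measurable_snd).add
        ((measurable_pi_apply _).comp measurable_fst)
  have key : ∀ q₁ q₂ : ℚ, A ≤ q₁ → q₁ < q₂ → (q₂ : ℝ) ≤ B → ∀ᵐ ω ∂P,
      supL q₁ (fun x => F ω x + G ω x) ≠ supR q₂ (fun x => F ω x + G ω x) := by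
    intro q₁ q₂ h1 h12 h2
    have e1 := (indepFun_iff_map_prod_eq_prod_map_map hG.aemeasurable hF.aemeasurable).1 hFG
    have e2 : P.map (fun ω => (G ω, F ω)) {p : (RatIcc A B → ℝ) × (RatIcc A B → ℝ) |
      supL q₁ (fun x => p.2 x + p.1 x) = supR q₂ (fun x => p.2 x + p.1 x)} = 0 := by
      have : IsProbabilityMeasure (P.map F) := Measure.isProbabilityMeasure_map hF.aemeasurable
      have : IsProbabilityMeasure (P.map G) := Measure.isProbabilityMeasure_map hG.aemeasurable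
      rw [e1, Measure.measure_prod_null (hsm q₁ q₂)]
      have hbd : ∀ᵐ γ ∂(P.map G), BddAbove (range γ) := by
        rw [ae_map_iff hG.aemeasurable]
        · refine ae_of_all _ fun ω => ?_
          obtain ⟨M, hM⟩ := (isCompact_Icc (a := A) (b := B)).bddAbove_image (hgc ω).continuousOn
          refine ⟨M, ?_⟩
          rintro _ ⟨x, rfl⟩
          exact hM ⟨_, x.2, rfl⟩
        · exact measurableSet_bddAbove_range (f := fun (x : RatIcc A B) (γ : RatIcc A B → ℝ) => γ x)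
            fun x => measurable_pi_apply _
      filter_upwards [hbd] with γ hγ
      have hms : MeasurableSet (Prod.mk γ ⁻¹' {p : (RatIcc A B → ℝ) × (RatIcc A B → ℝ) |
        supL q₁ (fun x => p.2 x + p.1 x) = supR q₂ (fun x => p.2 x + p.1 x)}) :=
        measurable_prodMk_left (hsm q₁ q₂)
      refine hac ?_
      rw [Measure.map_apply _ hms]
      · exact argmax_null hb h1 h12 h2 γ hγ
      · exact measurable_pi_lambda _ fun x => (hb.meas _).sub (hb.meas _)
    rw [Measure.map_apply (hG.prodMk hF) (hsm q₁ q₂)] at e2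
    rw [ae_iff]
    simp only [ne_eq, not_not]
    exact e2
  have key' : ∀ᵐ ω ∂P, ∀ q₁ q₂ : ℚ, A ≤ q₁ → q₁ < q₂ → (q₂ : ℝ) ≤ B →
      supL q₁ (fun x => F ω x + G ω x) ≠ supR q₂ (fun x => F ω x + G ω x) := by
    simp only [ae_all_iff]
    exact key
  filter_upwards [key'] with ω hω
  have main : ∀ x ∈ Set.Icc A B, ∀ y ∈ Set.Icc A B,
      (∀ z ∈ Set.Icc A B, f ω z + g ω z ≤ f ω x + g ω x) →
      (∀ z ∈ Set.Icc A B, f ω z + g ω z ≤ f ω y + g ω y) → ¬ x < y := by
    intro x hx y hy hmx hmy hxy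
    obtain ⟨q₁, h1, h1'⟩ := exists_rat_btwn hxy
    obtain ⟨q₂, h2, h2'⟩ := exists_rat_btwn h1'
    have hx1 := hx.1
    have hy2 := hy.2
    refine hω q₁ q₂ (by linarith) (by exact_mod_cast h2) (by linarith) ?_
    have hc : Continuous fun z => f ω z + g ω z - f ω A := by
      have := hfc ω; have := hgc ω; fun_prop
    have e1 : supL q₁ (fun x : RatIcc A B => F ω x + G ω x) = f ω x + g ω x - f ω A := by
      rw [← supL_eq (A := A) (B := B) (q := q₁) (h := fun z => f ω z + g ω z - f ω A) (by linarith)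
        hc hx1 h1 (fun z hz => by have := hmx z hz; linarith)]
      congr 1
      ext z
      simp only [F, G]
      ring
    have e2 : supR q₂ (fun x : RatIcc A B => F ω x + G ω x) = f ω y + g ω y - f ω A := by
      rw [← supR_eq (A := A) (B := B) (q := q₂) (h := fun z => f ω z + g ω z - f ω A) (by linarith)
        hc hy2 h2' (fun z hz => by have := hmy z hz; linarith)]
      congr 1
      ext z
      simp only [F, G]
      ring
    rw [e1, e2]
    have := hmx y hy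
    have := hmy x hx
    linarith
  intro x hx y hy hmx hmy
  rcases lt_trichotomy x y with h | h | h
  · exact absurd h (main x hx y hy hmx hmy)
  · exact h
  · exact absurd h (main y hy x hx hmy hmx)

end Pool.Agent.H55.BM
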