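import Mathlib

/-!
# Continuous modification

`X` satisfies `E |X x - X y|^4 ≤ C |x - y|^2`.  Let `M m N ω` be the maximum over the integers
`|k| ≤ N 2^m` of `|X ((k+1)/2^m) ω - X (k/2^m) ω|`; `P(M m N > 2^(-m/8)) ≤ C' N 2^(-m/2)`, so by
Borel-Cantelli almost surely `M m N ≤ 2^(-m/8)` for all large `m`, for every `N`.
`c m x = X (⌊2^m x⌋ / 2^m)`: `|c (m+1) x - c m x| ≤ M (m+1) N` and for `|x - y| ≤ 2^(-m)`
`|c m x - c m y| ≤ M m N` (`|x|, |y| ≤ N - 1`).  So `c m` converges locally uniformly to a continuous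
function `b` on the good event; `b = 0` off the good event (and subtract the value at `0`).
`c m x → X x` in `L^4`, so `b x = X x` almost surely.
-/

open MeasureTheory ProbabilityTheory Filter Topology Set
open scoped ENNReal NNReal

namespace Pool.Agent.H55.BM

theorem cont_step (f : ℝ → ℝ) (M : ℕ)
    (h : ∀ m : ℕ, M ≤ m → ∀ k : ℤ, |k| ≤ (m : ℤ) * 2 ^ m →
      |f (((k : ℝ) + 1) / 2 ^ m) - f ((k : ℝ) / 2 ^ m)| ≤ (9 / 10 : ℝ) ^ m)
    (N : ℕ) (x : ℝ) (hx : |x| ≤ N) (m : ℕ) (hM : M ≤ m) (hN : N + 1 ≤ m) :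
    |f ((⌊(2 : ℝ) ^ (m + 1) * x⌋ : ℝ) / 2 ^ (m + 1)) - f ((⌊(2 : ℝ) ^ m * x⌋ : ℝ) / 2 ^ m)| ≤
      (9 / 10 : ℝ) ^ (m + 1) := by
  set j := ⌊(2 : ℝ) ^ m * x⌋ with hj
  have hj1 : (j : ℝ) ≤ 2 ^ m * x := Int.floor_le _
  have hj2 : (2 : ℝ) ^ m * x < j + 1 := Int.lt_floor_add_one _
  have hp : (0 : ℝ) < 2 ^ m := by positivity
  have hp' : (2 : ℝ) ^ (m + 1) = 2 * 2 ^ m := by ring
  have hxx := abs_le.1 hx
  have hjb : |j| ≤ (m : ℤ) * 2 ^ m := by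
    have h1 : (1 : ℝ) ≤ 2 ^ m := one_le_pow₀ (by norm_num)
    have hN' : (N : ℝ) + 1 ≤ m := by exact_mod_cast hN
    rw [abs_le]
    constructor
    · have : (-((m : ℝ) * 2 ^ m)) ≤ j := by nlinarith
      exact_mod_cast this
    · have : (j : ℝ) ≤ (m : ℝ) * 2 ^ m := by nlinarith
      exact_mod_cast this
  have hcase : ⌊(2 : ℝ) ^ (m + 1) * x⌋ = 2 * j ∨ ⌊(2 : ℝ) ^ (m + 1) * x⌋ = 2 * j + 1 := by
    have h1 : (2 * j : ℤ) ≤ ⌊(2 : ℝ) ^ (m + 1) * x⌋ := by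
      rw [Int.le_floor]; push_cast; rw [hp']; nlinarith
    have h2 : ⌊(2 : ℝ) ^ (m + 1) * x⌋ < 2 * j + 2 := by
      rw [Int.floor_lt]; push_cast; rw [hp']; nlinarith
    omega
  rcases hcase with h0 | h0
  · rw [h0]
    have : (((2 * j : ℤ)) : ℝ) / 2 ^ (m + 1) = (j : ℝ) / 2 ^ m := by
      push_cast; rw [hp']; field_simp
    rw [this, sub_self, abs_zero]; positivity
  · rw [h0]
    have e1 : (((2 * j + 1 : ℤ)) : ℝ) / 2 ^ (m + 1) = ((((2 * j : ℤ)) : ℝ) + 1) / 2 ^ (m + 1) := by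
      push_cast; ring
    have e2 : (j : ℝ) / 2 ^ m = (((2 * j : ℤ)) : ℝ) / 2 ^ (m + 1) := by
      push_cast; rw [hp']; field_simp
    rw [e1, e2]
    apply h (m + 1) (by omega)
    rw [abs_mul]
    have : |(2 : ℤ)| = 2 := rfl
    rw [this, pow_succ]
    push_cast
    have : (0 : ℤ) < 2 ^ m := by positivity
    nlinarith

theorem cont_det (f : ℝ → ℝ) (M : ℕ)
    (h : ∀ m : ℕ, M ≤ m → ∀ k : ℤ, |k| ≤ (m : ℤ) * 2 ^ m →
      |f (((k : ℝ) + 1) / 2 ^ m) - f ((k : ℝ) / 2 ^ m)| ≤ (9 / 10 : ℝ) ^ m) :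
    ∃ g : ℝ → ℝ, Continuous g ∧
      ∀ x, Tendsto (fun m : ℕ => f ((⌊(2 : ℝ) ^ m * x⌋ : ℝ) / 2 ^ m)) atTop (𝓝 (g x)) := by
  set c : ℕ → ℝ → ℝ := fun m x => f ((⌊(2 : ℝ) ^ m * x⌋ : ℝ) / 2 ^ m) with hc
  have hgeo : ∀ (N : ℕ) (x : ℝ), |x| ≤ N → ∀ m : ℕ, M ≤ m → N + 1 ≤ m → ∀ n : ℕ,
      dist (c (n + m) x) (c (n + 1 + m) x) ≤ (9 / 10 : ℝ) ^ (m + 1) * (9 / 10 : ℝ) ^ n := by
    intro N x hx m hM hN n
    have h1 := cont_step f M h N x hx (n + m) (by omega) (by omega)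
    rw [dist_comm, Real.dist_eq]
    have e : n + 1 + m = n + m + 1 := by ring
    rw [e]
    refine h1.trans (le_of_eq ?_)
    rw [← pow_add]; congr 1; ring
  have hlim : ∀ x : ℝ, ∃ l, Tendsto (fun m => c m x) atTop (𝓝 l) := by
    intro x
    obtain ⟨N, hN⟩ := exists_nat_ge |x|
    have h1 := cauchySeq_of_le_geometric (9 / 10 : ℝ) ((9 / 10 : ℝ) ^ (max M (N + 1) + 1))
      (by norm_num) (hgeo N x hN (max M (N + 1)) (le_max_left _ _) (le_max_right _ _))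
    obtain ⟨l, hl⟩ := cauchySeq_tendsto_of_complete h1
    exact ⟨l, (tendsto_add_atTop_iff_nat (max M (N + 1))).1 hl⟩
  choose g hg using hlim
  have hbd : ∀ (N : ℕ) (x : ℝ), |x| ≤ N → ∀ m : ℕ, M ≤ m → N + 1 ≤ m →
      |c m x - g x| ≤ 10 * (9 / 10 : ℝ) ^ m := by
    intro N x hx m hM hN
    have h1 := dist_le_of_le_geometric_of_tendsto₀ (9 / 10 : ℝ) ((9 / 10 : ℝ) ^ (m + 1))
      (by norm_num) (hgeo N x hx m hM hN) ((tendsto_add_atTop_iff_nat m).2 (hg x))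
    rw [Real.dist_eq] at h1
    simp only [zero_add] at h1
    refine h1.trans ?_
    rw [pow_succ, div_le_iff₀ (by norm_num)]
    have : (0 : ℝ) < (9 / 10 : ℝ) ^ m := by positivity
    nlinarith
  refine ⟨g, ?_, hg⟩
  rw [Metric.continuous_iff]
  intro x ε hε
  obtain ⟨N, hN⟩ := exists_nat_ge (|x| + 1)
  have ht : Tendsto (fun m : ℕ => 21 * (9 / 10 : ℝ) ^ m) atTop (𝓝 (21 * 0)) :=
    (tendsto_pow_atTop_nhds_zero_of_lt_one (by norm_num) (by norm_num)).const_mul _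
  rw [mul_zero] at ht
  obtain ⟨m, hm1, hm2⟩ := ((ht.eventually (gt_mem_nhds hε)).and
    (eventually_ge_atTop (max M (N + 1)))).exists
  have hM : M ≤ m := le_trans (le_max_left _ _) hm2
  have hN1 : N + 1 ≤ m := le_trans (le_max_right _ _) hm2
  have hp : (0 : ℝ) < 2 ^ m := by positivity
  refine ⟨min 1 (1 / 2 ^ m), by positivity, ?_⟩
  intro y hy
  rw [Real.dist_eq] at hy ⊢
  have hy1 : |y - x| < 1 := lt_of_lt_of_le hy (min_le_left _ _)
  have hy2 : |y - x| < 1 / 2 ^ m := lt_of_lt_of_le hy (min_le_right _ _)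
  have hyN : |y| ≤ N := by
    have : |y| ≤ |y - x| + |x| := by
      have := abs_add_le (y - x) x
      simpa using this
    linarith
  have hxN : |x| ≤ N := by linarith [abs_nonneg x]
  have hmid : |c m y - c m x| ≤ (9 / 10 : ℝ) ^ m := by
    have hbound : ∀ z : ℝ, |z| ≤ N → |⌊(2 : ℝ) ^ m * z⌋| ≤ (m : ℤ) * 2 ^ m := by
      intro z hz
      have hz' := abs_le.1 hz
      have h1 : (1 : ℝ) ≤ 2 ^ m := one_le_pow₀ (by norm_num)
      have hN' : (N : ℝ) + 1 ≤ m := by exact_mod_cast hN1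
      have hj1 := Int.floor_le ((2 : ℝ) ^ m * z)
      have hj2 := Int.lt_floor_add_one ((2 : ℝ) ^ m * z)
      rw [abs_le]
      constructor
      · have : (-((m : ℝ) * 2 ^ m)) ≤ (⌊(2 : ℝ) ^ m * z⌋ : ℝ) := by nlinarith
        exact_mod_cast this
      · have : (⌊(2 : ℝ) ^ m * z⌋ : ℝ) ≤ (m : ℝ) * 2 ^ m := by nlinarith
        exact_mod_cast this
    have hd := abs_lt.1 hy2
    have hd1 : (2 : ℝ) ^ m * y < 2 ^ m * x + 1 := by
      have := (lt_div_iff₀ hp).1 hd.2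
      nlinarith
    have hd2 : (2 : ℝ) ^ m * x < 2 ^ m * y + 1 := by
      have h3 : x - y < 1 / 2 ^ m := by linarith [hd.1]
      have := (lt_div_iff₀ hp).1 h3
      nlinarith
    have hx1 := Int.floor_le ((2 : ℝ) ^ m * x)
    have hx2 := Int.lt_floor_add_one ((2 : ℝ) ^ m * x)
    have hz1 := Int.floor_le ((2 : ℝ) ^ m * y)
    have hz2 := Int.lt_floor_add_one ((2 : ℝ) ^ m * y)
    have hk1 : ⌊(2 : ℝ) ^ m * y⌋ < ⌊(2 : ℝ) ^ m * x⌋ + 2 := by
      have : (⌊(2 : ℝ) ^ m * y⌋ : ℝ) < (⌊(2 : ℝ) ^ m * x⌋ : ℝ) + 2 := by linarith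
      exact_mod_cast this
    have hk2 : ⌊(2 : ℝ) ^ m * x⌋ < ⌊(2 : ℝ) ^ m * y⌋ + 2 := by
      have : (⌊(2 : ℝ) ^ m * x⌋ : ℝ) < (⌊(2 : ℝ) ^ m * y⌋ : ℝ) + 2 := by linarith
      exact_mod_cast this
    have hcases : ⌊(2 : ℝ) ^ m * y⌋ = ⌊(2 : ℝ) ^ m * x⌋ ∨
        ⌊(2 : ℝ) ^ m * y⌋ = ⌊(2 : ℝ) ^ m * x⌋ + 1 ∨
        ⌊(2 : ℝ) ^ m * x⌋ = ⌊(2 : ℝ) ^ m * y⌋ + 1 := by omega
    simp only [hc]
    rcases hcases with h0 | h0 | h0
    · rw [h0, sub_self, abs_zero]; positivity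
    · rw [h0]; push_cast
      exact h m hM _ (hbound x hxN)
    · rw [h0, abs_sub_comm]; push_cast
      exact h m hM _ (hbound y hyN)
  have h1 := hbd N x hxN m hM hN1
  have h2 := hbd N y hyN m hM hN1
  have h3 : |g y - g x| ≤ |c m y - g y| + |c m y - c m x| + |c m x - g x| := by
    have e : g y - g x = -(c m y - g y) + (c m y - c m x) + (c m x - g x) := by ring
    rw [e]
    refine (abs_add_three _ _ _).trans ?_
    rw [abs_neg]
  linarith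

theorem cont_moment {Ω : Type*} [MeasurableSpace Ω] {P : Measure Ω}
    (X : ℝ → Ω → ℝ) (hX : ∀ x, Measurable (X x)) (C : ℝ)
    (hC : ∀ x y, ∫⁻ ω, ENNReal.ofReal ((X x ω - X y ω) ^ 4) ∂P ≤
      ENNReal.ofReal (C * (x - y) ^ 2)) (m : ℕ) :
    ∫⁻ ω, (∑ k ∈ Finset.Icc (-((m : ℤ) * 2 ^ m)) ((m : ℤ) * 2 ^ m),
      ENNReal.ofReal (((X (((k : ℝ) + 1) / 2 ^ m) ω - X ((k : ℝ) / 2 ^ m) ω) /
        (9 / 10 : ℝ) ^ m) ^ 4)) ∂P ≤
      ENNReal.ofReal (3 * ((m : ℝ) + 1) * |C| * (10000 / 13122 : ℝ) ^ m) := by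
  have hmeas : ∀ k : ℤ, Measurable fun ω =>
      ENNReal.ofReal (((X (((k : ℝ) + 1) / 2 ^ m) ω - X ((k : ℝ) / 2 ^ m) ω) /
        (9 / 10 : ℝ) ^ m) ^ 4) := fun k =>
    (((((hX _).sub (hX _)).div_const _).pow_const 4).ennreal_ofReal)
  rw [lintegral_finsetSum _ (fun k _ => hmeas k)]
  have hterm : ∀ k ∈ Finset.Icc (-((m : ℤ) * 2 ^ m)) ((m : ℤ) * 2 ^ m),
      ∫⁻ ω, ENNReal.ofReal (((X (((k : ℝ) + 1) / 2 ^ m) ω - X ((k : ℝ) / 2 ^ m) ω) /
        (9 / 10 : ℝ) ^ m) ^ 4) ∂P ≤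
      ENNReal.ofReal (|C| * ((10000 / 6561 : ℝ) ^ m * (1 / 4 : ℝ) ^ m)) := by
    intro k _
    have e : ∀ ω, ENNReal.ofReal (((X (((k : ℝ) + 1) / 2 ^ m) ω - X ((k : ℝ) / 2 ^ m) ω) /
        (9 / 10 : ℝ) ^ m) ^ 4) = ENNReal.ofReal ((10000 / 6561 : ℝ) ^ m) *
        ENNReal.ofReal ((X (((k : ℝ) + 1) / 2 ^ m) ω - X ((k : ℝ) / 2 ^ m) ω) ^ 4) := by
      intro ω
      rw [← ENNReal.ofReal_mul (by positivity)]
      congr 1
      rw [div_pow, ← pow_mul, mul_comm m 4, pow_mul, div_eq_inv_mul, ← inv_pow]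
      norm_num
    simp_rw [e]
    rw [lintegral_const_mul' _ _ ENNReal.ofReal_ne_top]
    refine (mul_le_mul_right (hC _ _) _).trans ?_
    rw [← ENNReal.ofReal_mul (by positivity)]
    apply ENNReal.ofReal_le_ofReal
    have e2 : ((k : ℝ) + 1) / 2 ^ m - (k : ℝ) / 2 ^ m = 1 / 2 ^ m := by ring
    rw [e2]
    have e3 : ((1 : ℝ) / 2 ^ m) ^ 2 = (1 / 4 : ℝ) ^ m := by
      rw [div_pow, one_pow, ← pow_mul, mul_comm m 2, pow_mul, one_div, ← inv_pow]; norm_num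
    rw [e3]
    have h1 : C ≤ |C| := le_abs_self C
    have h2 : (0 : ℝ) ≤ (10000 / 6561 : ℝ) ^ m * (1 / 4 : ℝ) ^ m := by positivity
    nlinarith
  refine (Finset.sum_le_sum hterm).trans ?_
  rw [Finset.sum_const, Int.card_Icc, nsmul_eq_mul]
  have hcard : ((((m : ℤ) * 2 ^ m + 1 - -((m : ℤ) * 2 ^ m)).toNat : ℕ) : ℝ≥0∞) ≤
      ENNReal.ofReal (3 * ((m : ℝ) + 1) * 2 ^ m) := by
    have e : ((m : ℤ) * 2 ^ m + 1 - -((m : ℤ) * 2 ^ m)).toNat = 2 * (m * 2 ^ m) + 1 := by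
      have : ((m : ℤ) * 2 ^ m + 1 - -((m : ℤ) * 2 ^ m)) = ((2 * (m * 2 ^ m) + 1 : ℕ) : ℤ) := by
        push_cast; ring
      rw [this, Int.toNat_natCast]
    rw [e, ← ENNReal.ofReal_natCast]
    apply ENNReal.ofReal_le_ofReal
    push_cast
    have h1 : (1 : ℝ) ≤ 2 ^ m := one_le_pow₀ (by norm_num)
    have h2 : (0 : ℝ) ≤ m := Nat.cast_nonneg m
    nlinarith
  refine (mul_le_mul_left hcard _).trans ?_
  rw [← ENNReal.ofReal_mul (by positivity)]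
  apply le_of_eq
  congr 1
  have e4 : (10000 / 13122 : ℝ) ^ m = 2 ^ m * ((10000 / 6561 : ℝ) ^ m * (1 / 4 : ℝ) ^ m) := by
    rw [← mul_pow, ← mul_pow]; norm_num
  rw [e4]; ring

theorem exists_continuous_modification {Ω : Type*} [MeasurableSpace Ω] {P : Measure Ω}
    [IsProbabilityMeasure P] (X : ℝ → Ω → ℝ) (hX : ∀ x, Measurable (X x)) (C : ℝ)
    (hC : ∀ x y, ∫⁻ ω, ENNReal.ofReal ((X x ω - X y ω) ^ 4) ∂P ≤
      ENNReal.ofReal (C * (x - y) ^ 2))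
    (h0 : ∀ᵐ ω ∂P, X 0 ω = 0) :
    ∃ b : Ω → ℝ → ℝ, (∀ x, Measurable fun ω => b ω x) ∧ (∀ ω, Continuous (b ω)) ∧
      (∀ ω, b ω 0 = 0) ∧ ∀ x, (fun ω => b ω x) =ᵐ[P] X x := by
  classical
  set T : ℕ → Ω → ℝ≥0∞ := fun m ω => ∑ k ∈ Finset.Icc (-((m : ℤ) * 2 ^ m)) ((m : ℤ) * 2 ^ m),
      ENNReal.ofReal (((X (((k : ℝ) + 1) / 2 ^ m) ω - X ((k : ℝ) / 2 ^ m) ω) /
        (9 / 10 : ℝ) ^ m) ^ 4) with hTdef
  have hTm : ∀ m, Measurable (T m) := fun m =>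
    Finset.measurable_sum _ (fun k _ =>
      (((((hX _).sub (hX _)).div_const _).pow_const 4).ennreal_ofReal))
  have hTs : Measurable fun ω => ∑' m, T m ω := Measurable.tsum hTm
  have hfin : ∫⁻ ω, ∑' m, T m ω ∂P ≠ ∞ := by
    rw [lintegral_tsum (fun m => (hTm m).aemeasurable)]
    have hle : ∑' m, ∫⁻ ω, T m ω ∂P ≤
        ∑' m : ℕ, ENNReal.ofReal (3 * ((m : ℝ) + 1) * |C| * (10000 / 13122 : ℝ) ^ m) :=
      ENNReal.tsum_le_tsum (fun m => cont_moment X hX C hC m)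
    refine ne_top_of_le_ne_top ?_ hle
    have hs : Summable fun m : ℕ => 3 * ((m : ℝ) + 1) * |C| * (10000 / 13122 : ℝ) ^ m := by
      have h1 : Summable fun m : ℕ => (m : ℝ) ^ 1 * (10000 / 13122 : ℝ) ^ m :=
        summable_pow_mul_geometric_of_norm_lt_one 1 (by
          rw [Real.norm_eq_abs, abs_of_pos (by norm_num)]; norm_num)
      have h2 : Summable fun m : ℕ => (10000 / 13122 : ℝ) ^ m :=
        summable_geometric_of_lt_one (by norm_num) (by norm_num)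
      refine ((h1.add h2).mul_left (3 * |C|)).congr (fun m => ?_)
      ring
    rw [← ENNReal.ofReal_tsum_of_nonneg (fun m => by positivity) hs]
    exact ENNReal.ofReal_ne_top
  set G : Set Ω := {ω | ∑' m, T m ω < ∞} with hG
  have hGm : MeasurableSet G := measurableSet_lt hTs measurable_const
  have hGae : ∀ᵐ ω ∂P, ω ∈ G := ae_lt_top hTs hfin
  have hdet : ∀ ω, ω ∈ G → ∃ g : ℝ → ℝ, Continuous g ∧
      ∀ x, Tendsto (fun m : ℕ => X ((⌊(2 : ℝ) ^ m * x⌋ : ℝ) / 2 ^ m) ω) atTop (𝓝 (g x)) := by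
    intro ω hω
    have h1 := ENNReal.tendsto_atTop_zero_of_tsum_ne_top (ne_of_lt hω)
    have h2 := (h1.eventually (gt_mem_nhds (zero_lt_one' ℝ≥0∞))).exists_forall_of_atTop
    obtain ⟨M, hM⟩ := h2
    refine cont_det (fun x => X x ω) M (fun m hm k hk => ?_)
    have h3 := hM m hm
    rw [abs_le] at hk
    have h4 : ENNReal.ofReal (((X (((k : ℝ) + 1) / 2 ^ m) ω - X ((k : ℝ) / 2 ^ m) ω) /
        (9 / 10 : ℝ) ^ m) ^ 4) ≤ T m ω := by
      simp only [hTdef]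
      exact Finset.single_le_sum (f := fun k : ℤ =>
        ENNReal.ofReal (((X (((k : ℝ) + 1) / 2 ^ m) ω - X ((k : ℝ) / 2 ^ m) ω) /
        (9 / 10 : ℝ) ^ m) ^ 4)) (fun _ _ => zero_le) (Finset.mem_Icc.2 hk)
    have h5 := lt_of_le_of_lt h4 h3
    rw [← ENNReal.ofReal_one, ENNReal.ofReal_lt_ofReal_iff (by norm_num)] at h5
    have h6 : |(X (((k : ℝ) + 1) / 2 ^ m) ω - X ((k : ℝ) / 2 ^ m) ω) /
        (9 / 10 : ℝ) ^ m| < 1 := by
      rw [← Even.pow_abs (by decide)] at h5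
      exact lt_of_pow_lt_pow_left₀ 4 (by norm_num) (by rw [one_pow]; exact h5)
    rw [abs_div, abs_of_pos (a := (9 / 10 : ℝ) ^ m) (by positivity), div_lt_one (by positivity)]
      at h6
    exact h6.le
  choose! g hgc hgt using hdet
  refine ⟨fun ω x => if ω ∈ G then g ω x - g ω 0 else 0, ?_, ?_, ?_, ?_⟩
  · intro x
    refine measurable_of_tendsto_metrizable (f := fun m ω => G.indicator (fun ω =>
      X ((⌊(2 : ℝ) ^ m * x⌋ : ℝ) / 2 ^ m) ω - X ((⌊(2 : ℝ) ^ m * 0⌋ : ℝ) / 2 ^ m) ω) ω) ?_ ?_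
    · intro m
      exact ((hX _).sub (hX _)).indicator hGm
    · rw [tendsto_pi_nhds]
      intro ω
      by_cases hω : ω ∈ G
      · simp only [Set.indicator_of_mem hω, if_pos hω]
        exact (hgt ω hω x).sub (hgt ω hω 0)
      · simp only [Set.indicator_of_notMem hω, if_neg hω]
        exact tendsto_const_nhds
  · intro ω
    by_cases hω : ω ∈ G
    · simp only [if_pos hω]
      exact (hgc ω hω).sub continuous_const
    · simp only [if_neg hω]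
      exact continuous_const
  · intro ω
    by_cases hω : ω ∈ G
    · simp only [if_pos hω, sub_self]
    · simp only [if_neg hω]
  · intro x
    have hsum : ∀ᵐ ω ∂P, ∑' m : ℕ,
        ENNReal.ofReal ((X ((⌊(2 : ℝ) ^ m * x⌋ : ℝ) / 2 ^ m) ω - X x ω) ^ 4) < ∞ := by
      apply ae_lt_top
      · exact Measurable.tsum (fun m => (((hX _).sub (hX _)).pow_const 4).ennreal_ofReal)
      · have hmm : ∀ m : ℕ, AEMeasurable (fun ω =>
            ENNReal.ofReal ((X ((⌊(2 : ℝ) ^ m * x⌋ : ℝ) / 2 ^ m) ω - X x ω) ^ 4)) P := fun m =>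
          (((hX _).sub (hX _)).pow_const 4).ennreal_ofReal.aemeasurable
        rw [lintegral_tsum hmm]
        have hle : ∑' m : ℕ, ∫⁻ ω,
            ENNReal.ofReal ((X ((⌊(2 : ℝ) ^ m * x⌋ : ℝ) / 2 ^ m) ω - X x ω) ^ 4) ∂P ≤
            ∑' m : ℕ, ENNReal.ofReal (|C| * (1 / 4 : ℝ) ^ m) := by
          refine ENNReal.tsum_le_tsum (fun m => (hC _ _).trans ?_)
          apply ENNReal.ofReal_le_ofReal
          have hp : (0 : ℝ) < 2 ^ m := by positivity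
          have hj1 := Int.floor_le ((2 : ℝ) ^ m * x)
          have hj2 := Int.lt_floor_add_one ((2 : ℝ) ^ m * x)
          have hd : |(⌊(2 : ℝ) ^ m * x⌋ : ℝ) / 2 ^ m - x| ≤ 1 / 2 ^ m := by
            rw [abs_le]
            have e : (⌊(2 : ℝ) ^ m * x⌋ : ℝ) / 2 ^ m - x =
              ((⌊(2 : ℝ) ^ m * x⌋ : ℝ) - 2 ^ m * x) / 2 ^ m := by field_simp
            rw [e]
            constructor
            · rw [← neg_div]
              exact div_le_div_of_nonneg_right (by linarith) hp.le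
            · exact div_le_div_of_nonneg_right (by linarith) hp.le
          have hsq : ((⌊(2 : ℝ) ^ m * x⌋ : ℝ) / 2 ^ m - x) ^ 2 ≤ (1 / 4 : ℝ) ^ m := by
            rw [← sq_abs]
            have e3 : ((1 : ℝ) / 2 ^ m) ^ 2 = (1 / 4 : ℝ) ^ m := by
              rw [div_pow, one_pow, ← pow_mul, mul_comm m 2, pow_mul, one_div, ← inv_pow]; norm_num
            rw [← e3]
            exact pow_le_pow_left₀ (abs_nonneg _) hd 2
          calc C * ((⌊(2 : ℝ) ^ m * x⌋ : ℝ) / 2 ^ m - x) ^ 2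
              ≤ |C| * ((⌊(2 : ℝ) ^ m * x⌋ : ℝ) / 2 ^ m - x) ^ 2 :=
                mul_le_mul_of_nonneg_right (le_abs_self C) (sq_nonneg _)
            _ ≤ |C| * (1 / 4 : ℝ) ^ m := mul_le_mul_of_nonneg_left hsq (abs_nonneg C)
        refine ne_top_of_le_ne_top ?_ hle
        rw [← ENNReal.ofReal_tsum_of_nonneg (fun m => by positivity)
          ((summable_geometric_of_lt_one (by norm_num) (by norm_num)).mul_left _)]
        exact ENNReal.ofReal_ne_top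
    filter_upwards [hGae, hsum, h0] with ω hω hs hz
    simp only [if_pos hω]
    have hlim0 : g ω 0 = 0 := by
      refine tendsto_nhds_unique (hgt ω hω 0) ?_
      have e : ∀ m : ℕ, X ((⌊(2 : ℝ) ^ m * 0⌋ : ℝ) / 2 ^ m) ω = 0 := by
        intro m; simp [hz]
      simp only [e]
      exact tendsto_const_nhds
    have hlimx : g ω x = X x ω := by
      refine tendsto_nhds_unique (hgt ω hω x) ?_
      have h1 := ENNReal.tendsto_atTop_zero_of_tsum_ne_top (ne_of_lt hs)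
      rw [tendsto_iff_norm_sub_tendsto_zero]
      have h2 : Tendsto (fun m : ℕ =>
          ((X ((⌊(2 : ℝ) ^ m * x⌋ : ℝ) / 2 ^ m) ω - X x ω) ^ 4)) atTop (𝓝 0) := by
        have h3 := (ENNReal.tendsto_toReal (a := 0) (by norm_num)).comp h1
        refine h3.congr (fun m => ?_)
        simp only [Function.comp]
        rw [ENNReal.toReal_ofReal]
        exact Even.pow_nonneg (by decide) _
      have h4 : Tendsto (fun m : ℕ => Real.sqrt (Real.sqrt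
          ((X ((⌊(2 : ℝ) ^ m * x⌋ : ℝ) / 2 ^ m) ω - X x ω) ^ 4))) atTop
          (𝓝 (Real.sqrt (Real.sqrt 0))) := (h2.sqrt).sqrt
      rw [Real.sqrt_zero, Real.sqrt_zero] at h4
      refine h4.congr (fun m => ?_)
      rw [show ∀ a : ℝ, a ^ 4 = (a ^ 2) ^ 2 from fun a => by ring, Real.sqrt_sq (sq_nonneg _),
        Real.sqrt_sq_eq_abs, Real.norm_eq_abs]
    rw [hlim0, hlimx, sub_zero]

end Pool.Agent.H55.BM
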