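import Mathlib

/-!
# A Gaussian process with covariance `|x| + |y| - |x - y|`

`Ω = ι → ℝ` with the product of standard Gaussians (`Measure.infinitePi`), `ι` the index set of a
Hilbert basis of `L²(ℝ)` (`exists_hilbertBasis`).  The coordinates `Z i` are orthonormal in
`L²(Ω)`, so there is a linear isometry `W : L²(ℝ) → L²(Ω)` (`HilbertBasis.repr`,
`Orthonormal.orthogonalFamily`, `OrthogonalFamily.linearIsometry`).  `W g` has law
`gaussianReal 0 ‖g‖²`: true on the span of the basis (finite sums of independent Gaussians), and a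
closed condition (characteristic functions: `‖E exp(i t W g) - E exp(i t W g')‖ ≤ |t| ‖g - g'‖`).
`X x = W (√2 • 1_(0,x])` (`indicatorConstLp`, `Set.uIoc 0 x`), representatives from `Lp`.
-/

open MeasureTheory ProbabilityTheory Filter Topology Set
open scoped ENNReal NNReal

namespace Pool.Agent.H55.BM

lemma iso_charFun_lip {Ω : Type*} [MeasurableSpace Ω] {P : Measure Ω} [IsProbabilityMeasure P]
    (f g : Lp ℝ 2 P) (t : ℝ) :
    ‖charFun (P.map f) t - charFun (P.map g) t‖ ≤ |t| * ‖f - g‖ := by
  have hf : AEMeasurable f P := (Lp.aestronglyMeasurable f).aemeasurable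
  have hg : AEMeasurable g P := (Lp.aestronglyMeasurable g).aemeasurable
  have hexp : ∀ h : Lp ℝ 2 P, Integrable (fun ω => Complex.exp (t * (h ω : ℝ) * Complex.I)) P := by
    intro h
    have hh : AEMeasurable h P := (Lp.aestronglyMeasurable h).aemeasurable
    refine Integrable.of_bound (C := 1) ?_ ?_
    · exact (by fun_prop : AEMeasurable (fun ω => Complex.exp (t * (h ω : ℝ) * Complex.I)) P).aestronglyMeasurable
    · refine ae_of_all _ fun ω => ?_
      have : (t * (h ω : ℝ) * Complex.I : ℂ) = ((t * h ω : ℝ) : ℂ) * Complex.I := by push_cast; ring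
      rw [this, Complex.norm_exp_ofReal_mul_I]
  rw [charFun_apply_real, charFun_apply_real, integral_map hf (by fun_prop),
    integral_map hg (by fun_prop), ← integral_sub (hexp f) (hexp g)]
  refine (norm_integral_le_integral_norm _).trans ?_
  have hint : Integrable (fun ω => (f - g : Lp ℝ 2 P) ω) P :=
    (Lp.memLp (f - g)).integrable (by norm_num)
  have h1 : ∫ ω, ‖(f - g : Lp ℝ 2 P) ω‖ ∂P ≤ ‖f - g‖ := by
    rw [integral_norm_eq_lintegral_enorm hint.aestronglyMeasurable, Lp.norm_def]
    refine ENNReal.toReal_mono (Lp.eLpNorm_ne_top _) ?_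
    rw [← eLpNorm_one_eq_lintegral_enorm]
    exact eLpNorm_le_eLpNorm_of_exponent_le (by norm_num) hint.aestronglyMeasurable
  calc ∫ ω, ‖Complex.exp (t * (f ω : ℝ) * Complex.I) - Complex.exp (t * (g ω : ℝ) * Complex.I)‖ ∂P
      ≤ ∫ ω, |t| * ‖(f - g : Lp ℝ 2 P) ω‖ ∂P := by
        refine integral_mono_ae ((hexp f).sub (hexp g)).norm (hint.norm.const_mul _) ?_
        filter_upwards [Lp.coeFn_sub f g] with ω hω
        rw [hω, Pi.sub_apply]
        have e1 : Complex.exp (t * (f ω : ℝ) * Complex.I) - Complex.exp (t * (g ω : ℝ) * Complex.I)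
          = Complex.exp (((t * g ω : ℝ) : ℂ) * Complex.I) *
            (Complex.exp (Complex.I * ((t * (f ω - g ω) : ℝ) : ℂ)) - 1) := by
          rw [mul_sub, ← Complex.exp_add, mul_one]
          congr 2 <;> push_cast <;> ring
        rw [e1, norm_mul, Complex.norm_exp_ofReal_mul_I, one_mul]
        refine Real.norm_exp_I_mul_ofReal_sub_one_le.trans ?_
        rw [norm_mul, Real.norm_eq_abs]
    _ = |t| * ∫ ω, ‖(f - g : Lp ℝ 2 P) ω‖ ∂P := integral_const_mul _ _
    _ ≤ |t| * ‖f - g‖ := by gcongr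

lemma iso_charFun_cont {Ω : Type*} [MeasurableSpace Ω] {P : Measure Ω} [IsProbabilityMeasure P]
    (t : ℝ) : Continuous fun f : Lp ℝ 2 P => charFun (P.map f) t := by
  rw [Metric.continuous_iff]
  intro f ε hε
  refine ⟨ε / (|t| + 1), by positivity, fun g hg => ?_⟩
  rw [dist_eq_norm] at hg ⊢
  refine (iso_charFun_lip g f t).trans_lt ?_
  calc |t| * ‖g - f‖ ≤ (|t| + 1) * ‖g - f‖ := by gcongr; linarith
    _ < (|t| + 1) * (ε / (|t| + 1)) := by gcongr
    _ = ε := by field_simp

/-- the isonormal process on a Hilbert space -/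
theorem iso_exists (H : Type) [NormedAddCommGroup H] [InnerProductSpace ℝ H] [CompleteSpace H] :
    ∃ (Ω : Type) (_ : MeasurableSpace Ω) (P : Measure Ω) (_ : IsProbabilityMeasure P)
      (W : H →ₗᵢ[ℝ] Lp ℝ 2 P), ∀ f : H, P.map (W f) = gaussianReal 0 (‖f‖₊ ^ 2) := by
  obtain ⟨w, b, -⟩ := exists_hilbertBasis ℝ H
  obtain ⟨Ω, mΩ, P, X, hXm, hXl, hXi, hP⟩ := exists_iid w (gaussianReal 0 1)
  have hX2 : ∀ i, MemLp (X i) 2 P := by
    intro i
    have h1 : MemLp (id : ℝ → ℝ) 2 (P.map (X i)) := by
      rw [(hXl i).map_eq]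
      exact memLp_id_gaussianReal 2
    rw [memLp_map_measure_iff (by fun_prop) (hXm i).aemeasurable] at h1
    exact h1
  have hmean : ∀ i, ∫ ω, X i ω ∂P = 0 := by
    intro i
    have h1 : ∫ x, x ∂(P.map (X i)) = 0 := by
      rw [(hXl i).map_eq]; exact integral_id_gaussianReal
    rw [integral_map (hXm i).aemeasurable (by fun_prop)] at h1
    exact h1
  have hvar : ∀ i, ∫ ω, X i ω * X i ω ∂P = 1 := by
    intro i
    have h1 : Var[fun x => x; P.map (X i)] = 1 := by
      rw [(hXl i).map_eq]; simp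
    rw [variance_map (by fun_prop) (hXm i).aemeasurable] at h1
    rw [variance_eq_sub (by exact hX2 i)] at h1
    have h2 : ∫ ω, ((fun x : ℝ => x) ∘ X i) ω ∂P = 0 := hmean i
    rw [h2] at h1
    simp only [ne_eq, OfNat.ofNat_ne_zero, not_false_eq_true, zero_pow, sub_zero] at h1
    rw [← h1]
    refine integral_congr_ae (ae_of_all _ fun ω => ?_)
    simp [sq]
  let Z : w → Lp ℝ 2 P := fun i => (hX2 i).toLp (X i)
  have hZ : Orthonormal ℝ Z := by
    classical
    rw [orthonormal_iff_ite]
    intro i j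
    have h0 : inner ℝ (Z i) (Z j) = ∫ ω, X i ω * X j ω ∂P := by
      rw [L2.inner_def]
      refine integral_congr_ae ?_
      filter_upwards [(hX2 i).coeFn_toLp, (hX2 j).coeFn_toLp] with ω h1 h2
      rw [h1, h2]
      simp [mul_comm]
    rw [h0]
    split_ifs with hij
    · rw [hij]; exact hvar j
    · have h3 := (hXi.indepFun hij).integral_mul_eq_mul_integral (hXm i).aestronglyMeasurable (hXm j).aestronglyMeasurable
      have h4 : ∫ ω, X i ω * X j ω ∂P = (∫ ω, X i ω ∂P) * ∫ ω, X j ω ∂P := h3
      rw [h4, hmean i, zero_mul]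
  let W : H →ₗᵢ[ℝ] Lp ℝ 2 P := hZ.orthogonalFamily.linearIsometry.comp b.repr.toLinearIsometry
  have hWb : ∀ i, W (b i) = Z i := by
    classical
    intro i
    have e1 : W (b i) = hZ.orthogonalFamily.linearIsometry (b.repr (b i)) := rfl
    rw [e1, HilbertBasis.repr_self]
    exact (OrthogonalFamily.linearIsometry_apply_single hZ.orthogonalFamily _).trans (by simp)
  have hfin : ∀ (c : w → ℝ) (s : Finset w), P.map (W (∑ i ∈ s, c i • b i)) =
      gaussianReal 0 (‖∑ i ∈ s, c i • b i‖₊ ^ 2) := by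
    intro c s
    set h : H := ∑ i ∈ s, c i • b i with hh
    have hWh : W h =ᵐ[P] fun ω => ∑ i : s, c i * X i ω := by
      have e1 : W h = ∑ i ∈ s, c i • Z i := by
        rw [hh, map_sum]
        exact Finset.sum_congr rfl fun i _ => by rw [map_smul, hWb]
      have e2 : ∀ s : Finset w, (∑ i ∈ s, c i • Z i : Lp ℝ 2 P) =ᵐ[P] fun ω => ∑ i ∈ s, c i * X i ω := by
        classical
        intro s
        induction s using Finset.induction_on with
        | empty =>
          simp only [Finset.sum_empty]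
          exact Lp.coeFn_zero _ _ _
        | insert a s ha ih =>
          rw [Finset.sum_insert ha]
          filter_upwards [Lp.coeFn_add (c a • Z a) (∑ i ∈ s, c i • Z i), ih,
            Lp.coeFn_smul (c a) (Z a), (hX2 a).coeFn_toLp] with ω h1 h2 h3 h4
          rw [h1, Pi.add_apply, h2, h3, Pi.smul_apply, h4, Finset.sum_insert ha, smul_eq_mul]
      rw [e1]
      filter_upwards [e2 s] with ω hω
      rw [hω, Finset.sum_coe_sort s (fun i => c i * X i ω)]
    have hind : iIndepFun (fun (i : s) ω => c i * X i ω) P :=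
      (hXi.precomp Subtype.val_injective).comp (fun (i : s) x => c i * x) (fun i => by fun_prop)
    have hG1 : ∀ i : s, HasGaussianLaw (fun ω => c i * X i ω) P := fun i =>
      ((hXl i).hasGaussianLaw).fun_smul (c i)
    have hG : HasGaussianLaw (fun ω => ∑ i : s, c i * X i ω) P :=
      iIndepFun.hasGaussianLaw_fun_sum hG1 hind
    have hGW : HasGaussianLaw (W h) P := hG.congr hWh.symm
    have hm : ∫ ω, W h ω ∂P = 0 := by
      rw [integral_congr_ae hWh, integral_finsetSum]
      · refine Finset.sum_eq_zero fun i _ => ?_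
        rw [integral_const_mul, hmean, mul_zero]
      · intro i _
        exact ((hX2 i).integrable (by norm_num)).const_mul _
    have hv : Var[W h; P] = ‖h‖ ^ 2 := by
      rw [variance_of_integral_eq_zero (Lp.aestronglyMeasurable _).aemeasurable hm]
      have e3 : ‖W h‖ ^ 2 = ∫ ω, (W h ω) ^ 2 ∂P := by
        rw [← real_inner_self_eq_norm_sq, L2.inner_def]
        refine integral_congr_ae (ae_of_all _ fun ω => ?_)
        simp [sq]
      rw [← e3, W.norm_map]
    rw [hGW.map_eq_gaussianReal, hm, hv]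
    congr 1
    ext
    simp
  refine ⟨Ω, mΩ, P, hP, W, fun f => ?_⟩
  have hcf : ∀ t, charFun (P.map (W f)) t = charFun (gaussianReal 0 (‖f‖₊ ^ 2)) t := by
    intro t
    have hcl : IsClosed {f : H | charFun (P.map (W f)) t = charFun (gaussianReal 0 (‖f‖₊ ^ 2)) t} := by
      refine isClosed_eq ((iso_charFun_cont t).comp W.continuous) ?_
      simp_rw [charFun_gaussianReal]
      fun_prop
    refine hcl.mem_of_tendsto (b.hasSum_repr f) (Eventually.of_forall fun s => ?_)
    simp only [mem_ofPred_eq]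
    rw [hfin]
  have : IsProbabilityMeasure (P.map (W f)) := Measure.isProbabilityMeasure_map (Lp.aestronglyMeasurable _).aemeasurable
  exact Measure.ext_of_charFun (funext hcf)

lemma iso_volume (x y : ℝ) : 2 * volume.real (uIoc 0 x ∩ uIoc 0 y) = |x| + |y| - |x - y| := by
  rcases le_total 0 x with hx | hx <;> rcases le_total 0 y with hy | hy
  · rw [uIoc_of_le hx, uIoc_of_le hy, Ioc_inter_Ioc, max_self, Real.volume_real_Ioc_of_le (le_min hx hy),
      abs_of_nonneg hx, abs_of_nonneg hy]
    rcases le_total x y with h | h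
    · rw [min_eq_left h, abs_of_nonpos (by linarith)]; ring
    · rw [min_eq_right h, abs_of_nonneg (by linarith)]; ring
  · rw [uIoc_of_le hx, uIoc_of_ge hy, Ioc_inter_Ioc, abs_of_nonneg hx, abs_of_nonpos hy,
      abs_of_nonneg (by linarith), max_eq_left hy, min_eq_right hx]
    simp
  · rw [uIoc_of_ge hx, uIoc_of_le hy, Ioc_inter_Ioc, abs_of_nonpos hx, abs_of_nonneg hy,
      abs_of_nonpos (by linarith), max_eq_right hx, min_eq_left hy]
    simp
    ring
  · rw [uIoc_of_ge hx, uIoc_of_ge hy, Ioc_inter_Ioc, min_self, Real.volume_real_Ioc_of_le (max_le hx hy),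
      abs_of_nonpos hx, abs_of_nonpos hy]
    rcases le_total x y with h | h
    · rw [max_eq_right h, abs_of_nonpos (by linarith)]; ring
    · rw [max_eq_left h, abs_of_nonneg (by linarith)]; ring

theorem exists_isonormal : ∃ (Ω : Type) (_ : MeasurableSpace Ω) (P : Measure Ω)
    (X : ℝ → Ω → ℝ), IsProbabilityMeasure P ∧ (∀ x, Measurable (X x)) ∧
      IsGaussianProcess X P ∧ (∀ x, ∫ ω, X x ω ∂P = 0) ∧
      ∀ x y, cov[X x, X y; P] = |x| + |y| - |x - y| := by
  obtain ⟨Ω, mΩ, P, hP, W, hW⟩ := iso_exists (Lp ℝ 2 (volume : Measure ℝ))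
  have hfin : ∀ x : ℝ, volume (uIoc 0 x) ≠ ∞ := fun x => by
    rw [uIoc]; exact measure_Ioc_lt_top.ne
  let g : ℝ → Lp ℝ 2 (volume : Measure ℝ) := fun x =>
    √2 • indicatorConstLp 2 measurableSet_uIoc (hfin x) (1 : ℝ)
  have hg : ∀ x y, inner ℝ (g x) (g y) = |x| + |y| - |x - y| := by
    intro x y
    simp only [g]
    rw [inner_smul_left, inner_smul_right, L2.inner_indicatorConstLp_indicatorConstLp (hμs := hfin x) (hμt := hfin y)]
    rw [← iso_volume x y]
    simp only [conj_trivial, inner_self_eq_norm_sq_to_K, norm_one, RCLike.ofReal_real_eq_id, id_eq,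
      one_pow, smul_eq_mul, mul_one]
    rw [← mul_assoc, Real.mul_self_sqrt (by norm_num)]
  have hmean : ∀ f, ∫ ω, W f ω ∂P = 0 := by
    intro f
    have h1 : ∫ x, x ∂(P.map (W f)) = 0 := by
      rw [hW]; exact integral_id_gaussianReal
    rw [integral_map (Lp.aestronglyMeasurable _).aemeasurable (by fun_prop)] at h1
    exact h1
  refine ⟨Ω, mΩ, P, fun x => W (g x), hP, fun x => (Lp.stronglyMeasurable _).measurable, ⟨?_⟩,
    fun x => hmean _, fun x y => ?_⟩
  · intro I
    refine ⟨isGaussian_of_map_eq_gaussianReal fun L => ?_⟩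
    refine ⟨0, (‖∑ i : I, L (Pi.single i 1) • g i‖₊ ^ 2), ?_⟩
    rw [Measure.map_map (by fun_prop) (by
      refine measurable_pi_lambda _ fun i => ?_
      exact (Lp.stronglyMeasurable _).measurable)]
    rw [← hW]
    refine Measure.map_congr ?_
    have e1 : W (∑ i : I, L (Pi.single i 1) • g i) = ∑ i : I, L (Pi.single i 1) • W (g i) := by
      rw [map_sum]
      exact Finset.sum_congr rfl fun i _ => by rw [map_smul]
    have e2 : ∀ s : Finset I, (∑ i ∈ s, L (Pi.single i 1) • W (g i) : Lp ℝ 2 P) =ᵐ[P]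
        fun ω => ∑ i ∈ s, L (Pi.single i 1) * W (g i) ω := by
      classical
      intro s
      induction s using Finset.induction_on with
      | empty =>
        simp only [Finset.sum_empty]
        exact Lp.coeFn_zero _ _ _
      | insert a s ha ih =>
        rw [Finset.sum_insert ha]
        filter_upwards [Lp.coeFn_add (L (Pi.single a 1) • W (g a))
          (∑ i ∈ s, L (Pi.single i 1) • W (g i)), ih,
          Lp.coeFn_smul (L (Pi.single a 1)) (W (g a))] with ω h1 h2 h3
        rw [h1, Pi.add_apply, h2, h3, Pi.smul_apply, Finset.sum_insert ha, smul_eq_mul]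
    rw [e1]
    filter_upwards [e2 Finset.univ] with ω hω
    rw [hω]
    simp only [Function.comp_apply]
    have e3 : (I.restrict fun x => W (g x) ω) = ∑ i : I, (W (g i) ω) • (Pi.single i 1 : I → ℝ) := by
      classical
      ext j
      simp [Finset.sum_apply, Pi.single_apply]
    rw [e3, map_sum]
    refine Finset.sum_congr rfl fun i _ => ?_
    rw [map_smul, smul_eq_mul, mul_comm]
  · rw [covariance_eq_sub (Lp.memLp _) (Lp.memLp _), hmean, hmean, mul_zero, sub_zero, ← hg x y,
      ← W.inner_map_map, L2.inner_def]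
    refine integral_congr_ae (ae_of_all _ fun ω => ?_)
    simp [mul_comm]

end Pool.Agent.H55.BM
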