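import Pool.Agent.H55.BM.Char
import Pool.Agent.H55.BM.Iso
import Pool.Agent.H55.BM.Cont

/-! # Existence of Brownian motion: `exists_isonormal` (fourth moment of a Gaussian of variance `v`
is `3 v^2`), `exists_continuous_modification`, `of_gaussian` -/

open MeasureTheory ProbabilityTheory Filter Topology Set
open scoped ENNReal NNReal

namespace Pool.Agent.H55.BM

open Pool.Agent.H37.DL

theorem fourth_finite : ∫⁻ z, ENNReal.ofReal (z ^ 4) ∂(gaussianReal 0 1) < ∞ := by
  have h1 : MemLp id 4 (gaussianReal 0 1) := by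
    have := memLp_id_gaussianReal (μ := 0) (v := 1) 4
    exact_mod_cast this
  have h2 := h1.integrable_norm_pow (by norm_num)
  have h3 : Integrable (fun z : ℝ => z ^ 4) (gaussianReal 0 1) := by
    refine h2.congr (ae_of_all _ fun z => ?_)
    change ‖z‖ ^ 4 = z ^ 4
    rw [Real.norm_eq_abs]
    have : |z| ^ 4 = (|z| ^ 2) ^ 2 := by ring
    rw [this, sq_abs]
    ring
  have h4 := h3.2
  rw [hasFiniteIntegral_iff_ofReal (ae_of_all _ fun z => by positivity)] at h4
  exact h4

theorem fourth_moment : ∃ C : ℝ, ∀ a : ℝ, 0 ≤ a →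
    ∫⁻ z, ENNReal.ofReal (z ^ 4) ∂(gaussianReal 0 (2 * a).toNNReal) ≤
      ENNReal.ofReal (C * a ^ 2) := by
  set M := ∫⁻ z, ENNReal.ofReal (z ^ 4) ∂(gaussianReal 0 1) with hM
  refine ⟨4 * M.toReal, fun a ha => ?_⟩
  have h1 : gaussianReal 0 (2 * a).toNNReal = (gaussianReal 0 1).map (√(2 * a) * ·) := by
    rw [gaussianReal_map_const_mul, mul_zero, mul_one]
    congr 1
    apply NNReal.eq
    rw [Real.coe_toNNReal _ (by positivity)]
    exact (Real.sq_sqrt (by positivity)).symm
  rw [h1, lintegral_map (by fun_prop) (by fun_prop)]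
  have h2 : ∀ z : ℝ, ENNReal.ofReal ((√(2 * a) * z) ^ 4) =
      ENNReal.ofReal (4 * a ^ 2) * ENNReal.ofReal (z ^ 4) := by
    intro z
    rw [← ENNReal.ofReal_mul (by positivity), mul_pow]
    congr 2
    have : √(2 * a) ^ 4 = (√(2 * a) ^ 2) ^ 2 := by ring
    rw [this, Real.sq_sqrt (by positivity)]
    ring
  simp_rw [h2]
  rw [lintegral_const_mul _ (by fun_prop), ← hM]
  have h3 : ENNReal.ofReal (4 * M.toReal * a ^ 2) = ENNReal.ofReal (4 * a ^ 2) * M := by
    have h4 : 4 * M.toReal * a ^ 2 = 4 * a ^ 2 * M.toReal := by ring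
    rw [h4, ENNReal.ofReal_mul (by positivity), ENNReal.ofReal_toReal fourth_finite.ne]
  rw [h3]

theorem exists_isBM : ∃ (Ω : Type) (_ : MeasurableSpace Ω) (P : Measure Ω) (b : Ω → ℝ → ℝ),
    IsProbabilityMeasure P ∧ IsBM P b := by
  obtain ⟨Ω, iΩ, P, X, hP, hXm, hXg, hX0, hXc⟩ := exists_isonormal
  have hL : ∀ x, MemLp (X x) 2 P := fun x => (hXg.hasGaussianLaw_eval x).memLp_two
  obtain ⟨C, hC⟩ := fourth_moment
  have hlaw : ∀ x y, P.map (fun ω => X x ω - X y ω) = gaussianReal 0 (2 * |x - y|).toNNReal := by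
    intro x y
    have h1 : HasGaussianLaw (fun ω => X x ω - X y ω) P := hXg.hasGaussianLaw_fun_sub
    rw [h1.map_eq_gaussianReal]
    congr 1
    · rw [integral_sub ((hL _).integrable one_le_two) ((hL _).integrable one_le_two), hX0, hX0,
        sub_zero]
    · rw [variance_fun_sub (hL _) (hL _), ← covariance_self (hXm _).aemeasurable,
        ← covariance_self (hXm _).aemeasurable, hXc, hXc, hXc]
      rw [sub_self, abs_zero, sub_self, abs_zero]
      congr 1
      ring
  have h0 : ∀ᵐ ω ∂P, X 0 ω = 0 := by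
    have h1 : Var[X 0; P] = 0 := by
      rw [← covariance_self (hXm _).aemeasurable, hXc]
      simp
    have h2 := ae_eq_integral_of_variance_eq_zero (hL 0) h1
    rw [hX0 0] at h2
    exact h2
  obtain ⟨b, hbm, hbc, hb0, hbX⟩ := exists_continuous_modification X hXm C (by
    intro x y
    have h1 := lintegral_map (μ := P) (f := fun z : ℝ => ENNReal.ofReal (z ^ 4))
      (g := fun ω => X x ω - X y ω) (by fun_prop) ((hXm x).sub (hXm y))
    rw [hlaw] at h1
    rw [← h1]
    refine (hC |x - y| (abs_nonneg _)).trans ?_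
    rw [sq_abs]) h0
  refine ⟨Ω, iΩ, P, b, hP, of_gaussian hbm hbc hb0 ?_ ?_ ?_⟩
  · exact hXg.congr fun t => (hbX t).symm
  · intro x
    rw [integral_congr_ae (hbX x)]
    exact hX0 x
  · intro x y
    have e : ∀ x, ∫ ω, b ω x ∂P = ∫ ω, X x ω ∂P := fun x => integral_congr_ae (hbX x)
    have h1 : cov[fun ω => b ω x, fun ω => b ω y; P] = cov[X x, X y; P] := by
      unfold covariance
      apply integral_congr_ae
      filter_upwards [hbX x, hbX y] with ω h1 h2
      rw [h1, h2, e x, e y]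
    rw [h1, hXc, K]

end Pool.Agent.H55.BM
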