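import Pool.Agent.H55.BM.Line

/-!
# Tube lemma

One interval (`tube_one`): `b x = x b 1 + br x`, the bridge `br` independent of `b 1`
(`indep_bridge`), `P (b 1 ∈ [c, c + 1]) ≥ (4 π)^(-1/2) exp (-(|c| + 1)^2 / 4)`,
`P (sup |br| ≤ C - 1) ≥ 1/2` for `C` large (`sup_le`).  Then `iIndep_blocks` and `shift`.
-/

open MeasureTheory ProbabilityTheory Filter Topology Set
open scoped ENNReal NNReal

namespace Pool.Agent.H55.BM

open Pool.Agent.H37.DL

variable {Ω : Type*} [MeasurableSpace Ω] {P : Measure Ω} [IsProbabilityMeasure P]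
  {b : Ω → ℝ → ℝ}

/-- lower bound for the Gaussian probability of a unit interval -/
theorem Tube_gauss (c : ℝ) :
    ENNReal.ofReal (1 / 4 * Real.exp (-((|c| + 1) ^ 2 / 4))) ≤
      gaussianReal 0 2 (Set.Icc c (c + 1)) := by
  rw [gaussianReal_apply 0 (by norm_num : (2 : ℝ≥0) ≠ 0)]
  have h1 : ∀ x ∈ Set.Icc c (c + 1),
      ENNReal.ofReal (1 / 4 * Real.exp (-((|c| + 1) ^ 2 / 4))) ≤ gaussianPDF 0 2 x := by
    intro x hx
    apply ENNReal.ofReal_le_ofReal
    rw [gaussianPDFReal]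
    have hxabs : |x| ≤ |c| + 1 := by
      rw [abs_le]
      constructor
      · linarith [neg_abs_le c, hx.1]
      · linarith [le_abs_self c, hx.2]
    have hsq : x ^ 2 ≤ (|c| + 1) ^ 2 := by
      rw [← sq_abs x]
      exact pow_le_pow_left₀ (abs_nonneg x) hxabs 2
    have hs : Real.sqrt (2 * Real.pi * ((2 : ℝ≥0) : ℝ)) ≤ 4 := by
      rw [Real.sqrt_le_left (by norm_num)]
      have := Real.pi_lt_d2
      push_cast
      nlinarith
    have hs0 : 0 < Real.sqrt (2 * Real.pi * ((2 : ℝ≥0) : ℝ)) := by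
      apply Real.sqrt_pos.2
      have := Real.pi_pos
      push_cast
      positivity
    apply mul_le_mul
    · rw [one_div]
      exact inv_anti₀ hs0 hs
    · apply Real.exp_le_exp.2
      push_cast
      rw [sub_zero, neg_div]
      apply neg_le_neg
      rw [show (2 : ℝ) * 2 = 4 by norm_num]
      exact div_le_div_of_nonneg_right hsq (by norm_num)
    · exact (Real.exp_pos _).le
    · exact (inv_pos.2 hs0).le
  calc ENNReal.ofReal (1 / 4 * Real.exp (-((|c| + 1) ^ 2 / 4)))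
      = ∫⁻ _x in Set.Icc c (c + 1), ENNReal.ofReal (1 / 4 * Real.exp (-((|c| + 1) ^ 2 / 4))) := by
        rw [setLIntegral_const, Real.volume_Icc]
        simp
    _ ≤ ∫⁻ x in Set.Icc c (c + 1), gaussianPDF 0 2 x :=
        setLIntegral_mono (measurable_gaussianPDF _ _) h1

/-- the supremum of `|b|` over `[0, 1]` is at most `3` with probability at least `1/2` -/
theorem Tube_sup (hb : IsBM P b) :
    P {ω | ∃ x ∈ Set.Icc (0 : ℝ) 1, 3 ≤ |b ω x|} ≤ ENNReal.ofReal (1 / 2) := by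
  have h1 := sup_le hb (T := 1) (r := 3) one_pos (by norm_num)
  have h2 := sup_le (neg hb) (T := 1) (r := 3) one_pos (by norm_num)
  have hsub : {ω | ∃ x ∈ Set.Icc (0 : ℝ) 1, 3 ≤ |b ω x|} ⊆
      {ω | ∃ x ∈ Set.Icc (0 : ℝ) 1, 3 ≤ b ω x} ∪ {ω | ∃ x ∈ Set.Icc (0 : ℝ) 1, 3 ≤ -b ω x} := by
    rintro ω ⟨x, hx, h⟩
    rcases le_abs.1 h with h | h
    · exact Or.inl ⟨x, hx, h⟩
    · exact Or.inr ⟨x, hx, h⟩
  refine (measure_mono hsub).trans ((measure_union_le _ _).trans ((add_le_add h1 h2).trans ?_))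
  rw [← ENNReal.ofReal_add (by positivity) (by positivity)]
  apply ENNReal.ofReal_le_ofReal
  have h8 : Real.exp (-(3 : ℝ) ^ 2 / (4 * 1)) ≤ 1 / 8 := by
    have h3 : (8 : ℝ) ≤ Real.exp (9 / 4) := by
      have e1 : Real.exp (9 / 4) = Real.exp (1 / 4) * (Real.exp 1 * Real.exp 1) := by
        rw [← Real.exp_add, ← Real.exp_add]; norm_num
      have e2 : (2.7 : ℝ) ≤ Real.exp 1 := by
        have := Real.exp_one_gt_d9
        linarith
      have e3 : (1.25 : ℝ) ≤ Real.exp (1 / 4) := by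
        have := Real.add_one_le_exp (1 / 4 : ℝ)
        linarith
      rw [e1]
      have e4 : (2.7 : ℝ) * 2.7 ≤ Real.exp 1 * Real.exp 1 :=
        mul_le_mul e2 e2 (by norm_num) (by positivity)
      calc (8 : ℝ) ≤ 1.25 * (2.7 * 2.7) := by norm_num
        _ ≤ Real.exp (1 / 4) * (Real.exp 1 * Real.exp 1) :=
          mul_le_mul e3 e4 (by norm_num) (by positivity)
    have h4 : Real.exp (-(3 : ℝ) ^ 2 / (4 * 1)) = (Real.exp (9 / 4))⁻¹ := by
      rw [← Real.exp_neg]; norm_num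
    rw [h4, one_div]
    exact inv_anti₀ (by norm_num) h3
  linarith

theorem tube_one : ∃ C : ℝ, 0 < C ∧ ∀ {Ω : Type*} [MeasurableSpace Ω] {P : Measure Ω}
    [IsProbabilityMeasure P] {b : Ω → ℝ → ℝ}, IsBM P b → ∀ c : ℝ,
    ENNReal.ofReal (Real.exp (-((|c| + 1) ^ 2 / 4 + C))) ≤
      P {ω | b ω 1 ∈ Set.Icc c (c + 1) ∧ ∀ x ∈ Set.Icc (0 : ℝ) 1, |b ω x| ≤ |c| + C} := by
  refine ⟨7, by norm_num, ?_⟩
  intro Ω _ P _ b hb c
  -- the event for the bridge
  set S : Set (Set.Icc (0 : ℝ) 1 → ℝ) :=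
    ⋂ q : {q : ℚ // (q : ℝ) ∈ Set.Icc (0 : ℝ) 1}, {f | |f ⟨(q : ℝ), q.2⟩| ≤ 6} with hS
  have hSm : MeasurableSet S := by
    refine MeasurableSet.iInter fun q => ?_
    exact measurableSet_le (measurable_pi_apply _).abs measurable_const
  have hind := indep_bridge hb
  have hprod := hind.measure_inter_preimage_eq_mul (s := Set.Icc c (c + 1)) (t := S)
    measurableSet_Icc hSm
  have hE1 : P ((fun ω => b ω 1) ⁻¹' Set.Icc c (c + 1)) = gaussianReal 0 2 (Set.Icc c (c + 1)) := by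
    have h := law_sub hb 0 1
    have h0 : (fun ω => b ω 1 - b ω 0) = fun ω => b ω 1 := by
      funext ω; rw [hb.zero ω, sub_zero]
    rw [h0] at h
    have hv : (2 * |(1 : ℝ) - 0|).toNNReal = 2 := by
      norm_num
    rw [hv] at h
    rw [← h, Measure.map_apply (hb.meas 1) measurableSet_Icc]
  have hE2 : ENNReal.ofReal (1 / 2) ≤
      P ((fun ω (x : Set.Icc (0 : ℝ) 1) => b ω x - x * b ω 1) ⁻¹' S) := by
    have hmeas : MeasurableSet ((fun ω (x : Set.Icc (0 : ℝ) 1) => b ω x - x * b ω 1) ⁻¹' S) := by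
      apply measurableSet_preimage _ hSm
      exact measurable_pi_lambda _ fun x => (hb.meas x).sub ((hb.meas 1).const_mul _)
    have hc : P ((fun ω (x : Set.Icc (0 : ℝ) 1) => b ω x - x * b ω 1) ⁻¹' S)ᶜ ≤
        ENNReal.ofReal (1 / 2) := by
      refine (measure_mono ?_).trans (Tube_sup hb)
      intro ω hω
      simp only [hS, Set.mem_compl_iff, Set.mem_preimage, Set.mem_iInter, Set.mem_ofPred_eq,
        not_forall, not_le] at hω
      obtain ⟨q, hq⟩ := hω
      by_contra hcon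
      simp only [Set.mem_ofPred_eq, not_exists, not_and, not_le] at hcon
      have h1 := hcon q q.2
      have h2 := hcon 1 ⟨by norm_num, le_refl _⟩
      have h3 : |b ω q - q * b ω 1| ≤ |b ω q| + |(q : ℝ)| * |b ω 1| := by
        calc |b ω q - q * b ω 1| ≤ |b ω q| + |(q : ℝ) * b ω 1| := abs_sub _ _
          _ = _ := by rw [abs_mul]
      have h4 : |(q : ℝ)| ≤ 1 := by
        rw [abs_of_nonneg q.2.1]; exact q.2.2
      have h5 : |(q : ℝ)| * |b ω 1| ≤ 1 * 3 :=
        mul_le_mul h4 h2.le (abs_nonneg _) (by norm_num)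
      linarith
    have h1 := prob_add_prob_compl (μ := P) hmeas
    by_contra hlt
    rw [not_le] at hlt
    have h2 : P ((fun ω (x : Set.Icc (0 : ℝ) 1) => b ω x - x * b ω 1) ⁻¹' S) +
        P ((fun ω (x : Set.Icc (0 : ℝ) 1) => b ω x - x * b ω 1) ⁻¹' S)ᶜ <
        ENNReal.ofReal (1 / 2) + ENNReal.ofReal (1 / 2) :=
      ENNReal.add_lt_add_of_lt_of_le (measure_ne_top _ _) hlt hc
    rw [h1, ← ENNReal.ofReal_add (by norm_num) (by norm_num)] at h2
    norm_num at h2
  have hsub : (fun ω => b ω 1) ⁻¹' Set.Icc c (c + 1) ∩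
      (fun ω (x : Set.Icc (0 : ℝ) 1) => b ω x - x * b ω 1) ⁻¹' S ⊆
      {ω | b ω 1 ∈ Set.Icc c (c + 1) ∧ ∀ x ∈ Set.Icc (0 : ℝ) 1, |b ω x| ≤ |c| + 7} := by
    rintro ω ⟨h1, h2⟩
    refine ⟨h1, ?_⟩
    simp only [hS, Set.mem_preimage, Set.mem_iInter, Set.mem_ofPred_eq] at h2
    have h1' : |b ω 1| ≤ |c| + 1 := by
      have h1a : c ≤ b ω 1 := h1.1
      have h1b : b ω 1 ≤ c + 1 := h1.2
      rw [abs_le]
      constructor
      · linarith [neg_abs_le c]
      · linarith [le_abs_self c]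
    -- the bound for rationals
    have hq : ∀ q : ℚ, (q : ℝ) ∈ Set.Icc (0 : ℝ) 1 → |b ω q| ≤ |c| + 7 := by
      intro q hq
      have h3 := h2 ⟨q, hq⟩
      have h4 : |(q : ℝ) * b ω 1| ≤ |c| + 1 := by
        rw [abs_mul, abs_of_nonneg hq.1]
        calc (q : ℝ) * |b ω 1| ≤ 1 * |b ω 1| :=
              mul_le_mul_of_nonneg_right hq.2 (abs_nonneg _)
          _ ≤ |c| + 1 := by rw [one_mul]; exact h1'
      have h5 : |b ω q| ≤ |b ω q - q * b ω 1| + |(q : ℝ) * b ω 1| := by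
        have := abs_add_le (b ω q - q * b ω 1) ((q : ℝ) * b ω 1)
        rwa [sub_add_cancel] at this
      linarith
    -- density
    intro x hx
    have hcont : Continuous fun y => |b ω y| := (hb.cont ω).abs
    have hcl : IsClosed {y : ℝ | |b ω y| ≤ |c| + 7} := isClosed_le hcont continuous_const
    rcases eq_or_lt_of_le hx.1 with h0 | h0
    · rw [← h0, hb.zero ω]
      simp only [abs_zero]
      positivity
    · have hmem : x ∈ closure (Set.Ioo 0 x ∩ Set.range ((↑) : ℚ → ℝ)) := by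
        have h6 : Set.Ioo 0 x ⊆ closure (Set.Ioo 0 x ∩ Set.range ((↑) : ℚ → ℝ)) :=
          (Rat.isDenseEmbedding_coe_real.dense).open_subset_closure_inter isOpen_Ioo
        have h7 : x ∈ closure (Set.Ioo 0 x) := by
          rw [closure_Ioo h0.ne]
          exact ⟨h0.le, le_refl _⟩
        exact closure_minimal h6 isClosed_closure h7
      have hsub2 : Set.Ioo 0 x ∩ Set.range ((↑) : ℚ → ℝ) ⊆ {y : ℝ | |b ω y| ≤ |c| + 7} := by
        rintro _ ⟨hy, q, rfl⟩
        exact hq q ⟨hy.1.le, hy.2.le.trans hx.2⟩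
      exact (closure_minimal hsub2 hcl) hmem
  refine le_trans ?_ (measure_mono hsub)
  rw [hprod, hE1]
  refine le_trans ?_ (mul_le_mul' (Tube_gauss c) hE2)
  rw [← ENNReal.ofReal_mul (by positivity)]
  apply ENNReal.ofReal_le_ofReal
  rw [neg_add, Real.exp_add]
  have h7 : Real.exp (-7) ≤ 1 / 8 := by
    have h1 : (8 : ℝ) ≤ Real.exp 7 := by
      have := Real.add_one_le_exp (7 : ℝ)
      linarith
    rw [Real.exp_neg, one_div]
    exact inv_anti₀ (by norm_num) h1
  have hpos := Real.exp_pos (-((|c| + 1) ^ 2 / 4))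
  nlinarith

theorem tube (hb : IsBM P b) : ∃ C : ℝ, 0 < C ∧ ∀ (N : ℕ) (c : ℕ → ℝ),
    ENNReal.ofReal (Real.exp (-∑ j ∈ Finset.range N, ((|c j| + 1) ^ 2 / 4 + C))) ≤
      P {ω | ∀ j < N, b ω (j + 1) - b ω j ∈ Set.Icc (c j) (c j + 1) ∧
        ∀ x ∈ Set.Icc (0 : ℝ) 1, |b ω (j + x) - b ω j| ≤ |c j| + C} := by
  obtain ⟨C, hC, hone⟩ := tube_one
  refine ⟨C, hC, fun N c => ?_⟩
  -- the block events, with rationals
  set S : ℕ → Set (Set.Icc (0 : ℝ) 1 → ℝ) := fun j =>
    {f | f ⟨1, by norm_num⟩ ∈ Set.Icc (c j) (c j + 1)} ∩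
      ⋂ q : {q : ℚ // (q : ℝ) ∈ Set.Icc (0 : ℝ) 1}, {f | |f ⟨(q : ℝ), q.2⟩| ≤ |c j| + C} with hS
  have hSm : ∀ j, MeasurableSet (S j) := by
    intro j
    refine MeasurableSet.inter ?_ (MeasurableSet.iInter fun q => ?_)
    · exact (measurable_pi_apply _) measurableSet_Icc
    · exact measurableSet_le (measurable_pi_apply _).abs measurable_const
  have hind := iIndep_blocks hb
  have hprod := hind.measure_inter_preimage_eq_mul (Finset.range N) (sets := S) fun j _ => hSm j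
  have hblock : ∀ j : ℕ, ENNReal.ofReal (Real.exp (-((|c j| + 1) ^ 2 / 4 + C))) ≤
      P ((fun ω (x : Set.Icc (0 : ℝ) 1) => b ω (j + x) - b ω j) ⁻¹' S j) := by
    intro j
    refine (hone (shift hb j) (c j)).trans (measure_mono ?_)
    rintro ω ⟨h1, h2⟩
    refine ⟨h1, ?_⟩
    simp only [Set.mem_iInter, Set.mem_ofPred_eq]
    intro q
    exact h2 q q.2
  have hsub : (⋂ j ∈ Finset.range N,
      (fun ω (x : Set.Icc (0 : ℝ) 1) => b ω (j + x) - b ω j) ⁻¹' S j) ⊆
      {ω | ∀ j < N, b ω (j + 1) - b ω j ∈ Set.Icc (c j) (c j + 1) ∧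
        ∀ x ∈ Set.Icc (0 : ℝ) 1, |b ω (j + x) - b ω j| ≤ |c j| + C} := by
    intro ω hω j hj
    simp only [Set.mem_iInter, Finset.mem_range] at hω
    have h1 := hω j hj
    simp only [hS, Set.mem_preimage, Set.mem_inter_iff, Set.mem_ofPred_eq, Set.mem_iInter] at h1
    refine ⟨h1.1, ?_⟩
    intro x hx
    have hcont : Continuous fun y => |b ω (j + y) - b ω j| :=
      (((hb.cont ω).comp (continuous_const.add continuous_id)).sub continuous_const).abs
    have hcl : IsClosed {y : ℝ | |b ω (j + y) - b ω j| ≤ |c j| + C} :=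
      isClosed_le hcont continuous_const
    rcases eq_or_lt_of_le hx.1 with h0 | h0
    · rw [← h0]
      simp only [add_zero, sub_self, abs_zero]
      positivity
    · have hmem : x ∈ closure (Set.Ioo 0 x ∩ Set.range ((↑) : ℚ → ℝ)) := by
        have h6 : Set.Ioo 0 x ⊆ closure (Set.Ioo 0 x ∩ Set.range ((↑) : ℚ → ℝ)) :=
          (Rat.isDenseEmbedding_coe_real.dense).open_subset_closure_inter isOpen_Ioo
        have h7 : x ∈ closure (Set.Ioo 0 x) := by
          rw [closure_Ioo h0.ne]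
          exact ⟨h0.le, le_refl _⟩
        exact closure_minimal h6 isClosed_closure h7
      have hsub2 : Set.Ioo 0 x ∩ Set.range ((↑) : ℚ → ℝ) ⊆
          {y : ℝ | |b ω (j + y) - b ω j| ≤ |c j| + C} := by
        rintro _ ⟨hy, q, rfl⟩
        exact h1.2 ⟨q, ⟨hy.1.le, hy.2.le.trans hx.2⟩⟩
      exact (closure_minimal hsub2 hcl) hmem
  refine le_trans ?_ (measure_mono hsub)
  rw [hprod, ← Finset.sum_neg_distrib, Real.exp_sum,
    ENNReal.ofReal_prod_of_nonneg (fun _ _ => (Real.exp_pos _).le)]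
  exact Finset.prod_le_prod' fun j _ => hblock j

end Pool.Agent.H55.BM
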