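import Pool.Agent.H37.DL.Defs

/-!
# Two-sided Brownian motion as a Gaussian process

`IsBM P b` iff `b` is a centred Gaussian process with covariance `|x| + |y| - |x - y|` with
continuous paths vanishing at `0`.
-/

open MeasureTheory ProbabilityTheory Filter Topology Set
open scoped ENNReal NNReal

namespace Pool.Agent.H55.BM

open Pool.Agent.H37.DL

/-- the covariance of two-sided Brownian motion of variance `2 |x|` -/
noncomputable def K (x y : ℝ) : ℝ := |x| + |y| - |x - y|

/-- every finite set of reals is contained in the beginning of a strictly increasing sequence -/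
theorem exists_strictMono (J : Finset ℝ) (hJ : J.Nonempty) :
    ∃ t : ℕ → ℝ, StrictMono t ∧ ∀ x ∈ J, ∃ i, i < J.card ∧ t i = x := by
  refine ⟨fun i => if h : i < J.card then J.orderEmbOfFin rfl ⟨i, h⟩ else
    J.max' hJ + (i + 1 - J.card : ℝ), ?_, ?_⟩
  · apply strictMono_nat_of_lt_succ
    intro i
    by_cases h1 : i + 1 < J.card
    · have h0 : i < J.card := by omega
      simp only [dif_pos h0, dif_pos h1]
      apply (J.orderEmbOfFin rfl).strictMono
      exact Fin.mk_lt_mk.2 (Nat.lt_succ_self i)
    · by_cases h0 : i < J.card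
      · simp only [dif_pos h0, dif_neg h1]
        have h2 : J.orderEmbOfFin rfl ⟨i, h0⟩ ≤ J.max' hJ :=
          J.le_max' _ (J.orderEmbOfFin_mem rfl _)
        have h3 : (J.card : ℝ) = i + 1 := by
          have : J.card = i + 1 := by omega
          rw [this]
          push_cast
          ring
        push_cast
        rw [h3]
        linarith
      · simp only [dif_neg h0, dif_neg h1]
        push_cast
        linarith
  · intro x hx
    have h1 : x ∈ Set.range (J.orderEmbOfFin rfl) := by
      rw [Finset.range_orderEmbOfFin]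
      exact hx
    obtain ⟨⟨i, hi⟩, h2⟩ := h1
    refine ⟨i, hi, ?_⟩
    simp only [dif_pos hi]
    exact h2

variable {Ω : Type*} [MeasurableSpace Ω] {P : Measure Ω} [IsProbabilityMeasure P]
  {b : Ω → ℝ → ℝ}

theorem meas_sub (hm : ∀ x, Measurable fun ω => b ω x) (x y : ℝ) :
    Measurable fun ω => b ω y - b ω x := (hm y).sub (hm x)

theorem incr_gaussian (hb : IsBM P b) (k : ℕ) {t : ℕ → ℝ} (ht : StrictMono t) :
    HasGaussianLaw (fun ω (i : Fin k) => b ω (t (i + 1)) - b ω (t i)) P := by
  have hm : ∀ i : Fin k, AEMeasurable (fun ω => b ω (t (i + 1)) - b ω (t i)) P := fun i =>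
    (meas_sub hb.meas _ _).aemeasurable
  have h1 := hb.incr k t ht
  have h2 : ∀ i : Fin k, P.map (fun ω => b ω (t (i + 1)) - b ω (t i)) =
      gaussianReal 0 (2 * (t (i + 1) - t i)).toNNReal := by
    intro i
    have h3 := (measurePreserving_eval (fun i : Fin k =>
      gaussianReal 0 (2 * (t (i + 1) - t i)).toNNReal) i).map_eq
    rw [← h3, ← h1, Measure.map_map (measurable_pi_apply i)]
    · rfl
    · exact measurable_pi_lambda _ fun j => meas_sub hb.meas _ _
  have h3 : iIndepFun (fun (i : Fin k) ω => b ω (t (i + 1)) - b ω (t i)) P := by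
    rw [iIndepFun_iff_map_fun_eq_pi_map hm, h1]
    congr 1
    funext i
    exact (h2 i).symm
  refine h3.hasGaussianLaw fun i => ⟨?_⟩
  rw [h2 i]
  infer_instance

theorem tele (k j : ℕ) (hj : j ≤ k) (u : ℕ → ℝ) :
    ∑ i : Fin k, (if (i : ℕ) < j then 1 else 0) * (u (i + 1) - u i) = u j - u 0 := by
  rw [Fin.sum_univ_eq_sum_range (fun i => (if i < j then (1 : ℝ) else 0) * (u (i + 1) - u i)) k,
    ← Finset.sum_range_sub u j]
  rw [← Finset.sum_subset (Finset.range_subset_range.2 hj)]
  · apply Finset.sum_congr rfl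
    intro i hi
    rw [if_pos (Finset.mem_range.1 hi), one_mul]
  · intro i _ hi
    rw [Finset.mem_range] at hi
    rw [if_neg hi, zero_mul]

theorem gaussian (hb : IsBM P b) : IsGaussianProcess (fun x ω => b ω x) P := by
  refine ⟨fun I => ?_⟩
  obtain ⟨t, ht, hJ⟩ := exists_strictMono (insert 0 I) (Finset.insert_nonempty _ _)
  set k := (insert 0 I : Finset ℝ).card with hk
  obtain ⟨m, hm, hm0⟩ := hJ 0 (Finset.mem_insert_self _ _)
  choose j hj hjt using fun s : I => hJ s.1 (Finset.mem_insert_of_mem s.2)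
  have hg := incr_gaussian hb k ht
  let L : (Fin k → ℝ) →L[ℝ] (I → ℝ) :=
    ContinuousLinearMap.pi fun s =>
      ∑ i : Fin k, ((if (i : ℕ) < j s then (1 : ℝ) else 0) - (if (i : ℕ) < m then 1 else 0)) •
        ContinuousLinearMap.proj i
  have h1 : (fun ω => I.restrict (fun x => b ω x)) =
      L ∘ fun ω (i : Fin k) => b ω (t (i + 1)) - b ω (t i) := by
    funext ω s
    have h2 := tele k (j s) (hj s).le (fun i => b ω (t i))
    have h3 := tele k m hm.le (fun i => b ω (t i))
    rw [hjt s] at h2
    rw [hm0, hb.zero ω] at h3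
    simp only [Finset.restrict, Function.comp_apply, L, ContinuousLinearMap.coe_pi',
      _root_.sum_apply, _root_.smul_apply,
      ContinuousLinearMap.proj_apply, smul_eq_mul, sub_mul, Finset.sum_sub_distrib]
    rw [h2, h3]
    ring
  rw [h1]
  exact hg.map L

theorem law_sub_lt (hb : IsBM P b) {x y : ℝ} (hxy : x < y) :
    P.map (fun ω => b ω y - b ω x) = gaussianReal 0 (2 * (y - x)).toNNReal := by
  let t : ℕ → ℝ := fun i => x + i * (y - x)
  have ht : StrictMono t := by
    intro i j hij
    have h1 : (i : ℝ) < j := by exact_mod_cast hij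
    have h2 : (i : ℝ) * (y - x) < j * (y - x) := mul_lt_mul_of_pos_right h1 (sub_pos.2 hxy)
    change x + i * (y - x) < x + j * (y - x)
    linarith
  have h1 := hb.incr 1 t ht
  have h3 := (measurePreserving_eval (fun i : Fin 1 =>
    gaussianReal 0 (2 * (t (i + 1) - t i)).toNNReal) 0).map_eq
  have ht0 : t ((0 : Fin 1) : ℕ) = x := by
    change x + ((0 : ℕ) : ℝ) * (y - x) = x
    rw [Nat.cast_zero, zero_mul, add_zero]
  have ht1 : t (((0 : Fin 1) : ℕ) + 1) = y := by
    change x + ((0 + 1 : ℕ) : ℝ) * (y - x) = y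
    rw [zero_add, Nat.cast_one, one_mul]
    ring
  rw [← h1, Measure.map_map (measurable_pi_apply 0)] at h3
  · rw [ht0, ht1] at h3
    rw [← h3]
    congr 1
    funext ω
    change b ω y - b ω x = b ω (t (((0 : Fin 1) : ℕ) + 1)) - b ω (t ((0 : Fin 1) : ℕ))
    rw [ht0, ht1]
  · exact measurable_pi_lambda _ fun j => meas_sub hb.meas _ _

theorem law_sub (hb : IsBM P b) (x y : ℝ) :
    P.map (fun ω => b ω y - b ω x) = gaussianReal 0 (2 * |y - x|).toNNReal := by
  rcases lt_trichotomy x y with h | h | h
  · rw [law_sub_lt hb h, abs_of_pos (sub_pos.2 h)]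
  · subst h
    simp only [sub_self, abs_zero, mul_zero, Real.toNNReal_zero, gaussianReal_zero_var]
    rw [Measure.map_const, measure_univ, one_smul]
  · have h1 := law_sub_lt hb h
    have h2 : (fun ω => b ω y - b ω x) = (fun z : ℝ => -z) ∘ fun ω => b ω x - b ω y := by
      funext ω
      simp
    rw [h2, ← Measure.map_map measurable_neg (meas_sub hb.meas _ _), h1,
      gaussianReal_map_neg, neg_zero, abs_of_neg (sub_neg.2 h)]
    congr 2
    ring

theorem law (hb : IsBM P b) (x : ℝ) :
    P.map (fun ω => b ω x) = gaussianReal 0 (2 * |x|).toNNReal := by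
  have h := law_sub hb 0 x
  simp only [hb.zero, sub_zero] at h
  exact h

theorem mean (hb : IsBM P b) (x : ℝ) : ∫ ω, b ω x ∂P = 0 := by
  have h := integral_map (μ := P) (φ := fun ω => b ω x) (hb.meas x).aemeasurable
    (f := fun y : ℝ => y) (by fun_prop)
  rw [← h, law hb x, integral_id_gaussianReal]

theorem memLp (hb : IsBM P b) (x : ℝ) : MemLp (fun ω => b ω x) 2 P :=
  ((gaussian hb).hasGaussianLaw_eval x).memLp_two

theorem var_sub (hb : IsBM P b) (x y : ℝ) : Var[fun ω => b ω y - b ω x; P] = 2 * |y - x| := by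
  have h1 : Var[id; P.map (fun ω => b ω y - b ω x)] = Var[fun ω => b ω y - b ω x; P] := by
    rw [variance_map aemeasurable_id (meas_sub hb.meas _ _).aemeasurable]
    rfl
  rw [← h1, law_sub hb, variance_id_gaussianReal, Real.coe_toNNReal _ (by positivity)]

theorem var (hb : IsBM P b) (x : ℝ) : Var[fun ω => b ω x; P] = 2 * |x| := by
  have h := var_sub hb 0 x
  simp only [hb.zero, sub_zero] at h
  exact h

theorem cov (hb : IsBM P b) (x y : ℝ) :
    cov[fun ω => b ω x, fun ω => b ω y; P] = K x y := by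
  have h := variance_fun_sub (memLp hb y) (memLp hb x)
  rw [var_sub hb, var hb, var hb, covariance_comm] at h
  rw [K, abs_sub_comm x y]
  linarith

theorem of_gaussian (hm : ∀ x, Measurable fun ω => b ω x) (hc : ∀ ω, Continuous (b ω))
    (h0 : ∀ ω, b ω 0 = 0) (hg : IsGaussianProcess (fun x ω => b ω x) P)
    (hmean : ∀ x, ∫ ω, b ω x ∂P = 0)
    (hcov : ∀ x y, cov[fun ω => b ω x, fun ω => b ω y; P] = K x y) : IsBM P b := by
  have hL : ∀ x, MemLp (fun ω => b ω x) 2 P := fun x => (hg.hasGaussianLaw_eval x).memLp_two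
  refine ⟨hm, hc, h0, fun k t ht => ?_⟩
  have hG : HasGaussianLaw (fun ω (i : Fin k) => b ω (t (i + 1)) - b ω (t i)) P := by
    have h1 := hg.hasGaussianLaw_increments (n := k) (t := fun i : Fin (k + 1) => t i)
    exact h1
  have hind : iIndepFun (fun (i : Fin k) ω => b ω (t (i + 1)) - b ω (t i)) P := by
    refine HasGaussianLaw.iIndepFun_of_covariance_eq_zero hG fun i j hij => ?_
    rw [covariance_fun_sub_fun_sub (hL _) (hL _) (hL _) (hL _), hcov, hcov, hcov, hcov]
    unfold K
    wlog h : i < j generalizing i j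
    · have h2 := this j i hij.symm (lt_of_le_of_ne (not_lt.1 h) hij.symm)
      rw [abs_sub_comm (t (i + 1)) (t (j + 1)), abs_sub_comm (t (i + 1)) (t j),
        abs_sub_comm (t i) (t (j + 1)), abs_sub_comm (t i) (t j)]
      linarith
    · have e1 : t i ≤ t (i + 1) := ht.monotone (Nat.le_succ _)
      have e2 : t (i + 1) ≤ t j := ht.monotone (Nat.succ_le_of_lt h)
      have e3 : t j ≤ t (j + 1) := ht.monotone (Nat.le_succ _)
      rw [abs_of_nonpos (by linarith : t (i + 1) - t (j + 1) ≤ 0),
        abs_of_nonpos (by linarith : t (i + 1) - t j ≤ 0),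
        abs_of_nonpos (by linarith : t i - t (j + 1) ≤ 0),
        abs_of_nonpos (by linarith : t i - t j ≤ 0)]
      ring
  have hlaw : ∀ i : Fin k, P.map (fun ω => b ω (t (i + 1)) - b ω (t i)) =
      gaussianReal 0 (2 * (t (i + 1) - t i)).toNNReal := by
    intro i
    have h1 : HasGaussianLaw (fun ω => b ω (t (i + 1)) - b ω (t i)) P := hG.eval i
    rw [h1.map_eq_gaussianReal]
    congr 1
    · rw [integral_sub ((hL _).integrable one_le_two) ((hL _).integrable one_le_two), hmean, hmean,
        sub_zero]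
    · rw [variance_fun_sub (hL _) (hL _), ← covariance_self (hm _).aemeasurable,
        ← covariance_self (hm _).aemeasurable, hcov, hcov, hcov]
      unfold K
      have e1 : t i ≤ t (i + 1) := ht.monotone (Nat.le_succ _)
      rw [sub_self, abs_zero, sub_self, abs_zero, abs_of_nonneg (by linarith :
        0 ≤ t (i + 1) - t i)]
      congr 1
      ring
  have hmm : ∀ i : Fin k, AEMeasurable (fun ω => b ω (t (i + 1)) - b ω (t i)) P := fun i =>
    (meas_sub hm _ _).aemeasurable
  rw [(iIndepFun_iff_map_fun_eq_pi_map hmm).1 hind]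
  congr 1
  funext i
  exact hlaw i

end Pool.Agent.H55.BM
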