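import Pool.Agent.H55.BM.Pi

/-!
# Brunn-Minkowski in Euclidean space
-/

namespace Pool.H55.BM

open MeasureTheory Set
open scoped ENNReal Pointwise

/-- Prekopa-Leindler inequality in Euclidean space. -/
theorem prekopa_leindler_euclidean {a b : ℝ} (ha : 0 < a) (hb : 0 < b) (hab : a + b = 1) {n : ℕ}
    {f g h : EuclideanSpace ℝ (Fin n) → ℝ≥0∞}
    (hf : Measurable f) (hg : Measurable g) (hh : Measurable h)
    (H : ∀ x y, f x ^ a * g y ^ b ≤ h (a • x + b • y)) :
    (∫⁻ x, f x) ^ a * (∫⁻ x, g x) ^ b ≤ ∫⁻ x, h x := by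
  have mp := PiLp.volume_preserving_toLp (Fin n)
  rw [← mp.lintegral_comp hf, ← mp.lintegral_comp hg, ← mp.lintegral_comp hh]
  refine prekopa_leindler ha hb hab n (hf.comp mp.measurable) (hg.comp mp.measurable)
    (hh.comp mp.measurable) fun x y => ?_
  exact H _ _

/-- Multiplicative Brunn-Minkowski inequality. -/
theorem bm_mul {a b : ℝ} (ha : 0 < a) (hb : 0 < b) (hab : a + b = 1) {n : ℕ}
    {A B C : Set (EuclideanSpace ℝ (Fin n))} (hA : MeasurableSet A) (hB : MeasurableSet B)
    (hC : MeasurableSet C) (H : ∀ x ∈ A, ∀ y ∈ B, a • x + b • y ∈ C) :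
    volume A ^ a * volume B ^ b ≤ volume C := by
  have := prekopa_leindler_euclidean ha hb hab (f := A.indicator 1) (g := B.indicator 1)
    (h := C.indicator 1) (measurable_one.indicator hA) (measurable_one.indicator hB)
    (measurable_one.indicator hC) (by
      intro x y
      by_cases hx : x ∈ A
      · by_cases hy : y ∈ B
        · rw [indicator_of_mem hx, indicator_of_mem hy, indicator_of_mem (H x hx y hy)]
          simp
        · rw [indicator_of_notMem hy, ENNReal.zero_rpow_of_pos hb, mul_zero]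
          exact bot_le
      · rw [indicator_of_notMem hx, ENNReal.zero_rpow_of_pos ha, zero_mul]
        exact bot_le)
  simpa [lintegral_indicator_one hA, lintegral_indicator_one hB, lintegral_indicator_one hC]
    using this

/-- Brunn-Minkowski inequality with real `n`-th roots `α`, `β` of the volumes. -/
theorem bm_add {n : ℕ} {A B C : Set (EuclideanSpace ℝ (Fin n))}
    (hA : MeasurableSet A) (hB : MeasurableSet B)
    (hC : MeasurableSet C) (H : ∀ x ∈ A, ∀ y ∈ B, x + y ∈ C) {α β : ℝ} (hα : 0 < α) (hβ : 0 < β)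
    (hAv : volume A = ENNReal.ofReal (α ^ n)) (hBv : volume B = ENNReal.ofReal (β ^ n)) :
    ENNReal.ofReal ((α + β) ^ n) ≤ volume C := by
  have hs : 0 < α + β := add_pos hα hβ
  set a : ℝ := α / (α + β) with ha
  set b : ℝ := β / (α + β) with hb
  have ha0 : 0 < a := div_pos hα hs
  have hb0 : 0 < b := div_pos hβ hs
  have hab : a + b = 1 := by rw [ha, hb, ← add_div, div_self hs.ne']
  have h1 := bm_mul ha0 hb0 hab (A := a⁻¹ • A) (B := b⁻¹ • B) (C := C)
    (hA.const_smul₀ _) (hB.const_smul₀ _) hC (by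
      rintro _ ⟨x, hx, rfl⟩ _ ⟨y, hy, rfl⟩
      simp only [smul_smul, mul_inv_cancel₀ ha0.ne', mul_inv_cancel₀ hb0.ne', one_smul]
      exact H x hx y hy)
  rw [Measure.addHaar_smul, Measure.addHaar_smul, finrank_euclideanSpace_fin, hAv, hBv,
    ← ENNReal.ofReal_mul (abs_nonneg _), ← ENNReal.ofReal_mul (abs_nonneg _),
    abs_of_pos (pow_pos (inv_pos.2 ha0) n), abs_of_pos (pow_pos (inv_pos.2 hb0) n),
    ← mul_pow, ← mul_pow] at h1
  have e1 : a⁻¹ * α = α + β := by rw [ha]; field_simp
  have e2 : b⁻¹ * β = α + β := by rw [hb]; field_simp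
  rw [e1, e2, ← ENNReal.rpow_add_of_nonneg _ _ ha0.le hb0.le, hab, ENNReal.rpow_one] at h1
  exact h1

end Pool.H55.BM
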