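import Pool.Agent.H55.BM.Sym

/-!
# Brownian motion stays below a line

`grid`: on the grid `k h`, `k ≤ n`, put `M k = exp (c b(k h) - c^2 k h)`.  Decompose according to
the first `k` with `c (k h) + d ≤ b (k h)` (event `A k`): `1 = E M n ≥ ∑ E [M n; A k] =
∑ E [M k; A k] ≥ exp (c d) P (⋃ A k)`; `E [M n; A k] = E [M k; A k]` by independence of
`b (n h) - b (k h)` (Laplace transform of a Gaussian) and the past.
`line_exp`: continuity: for `d' < d` the event is contained in the increasing union over `m` of the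
grid events with `h = 2^(-m)`, `n = 4^m` and `d'` instead of `d`.
`sup_le`: `c = r / (2 T)`, `d = r / 2`.
`growth'`: for `x ≥ K`: `c x^2 ≥ (c K / 2) x + c K^2 / 2`; four events (signs, sides).
-/

open MeasureTheory ProbabilityTheory Filter Topology Set
open scoped ENNReal NNReal

namespace Pool.Agent.H55.BM

open Pool.Agent.H37.DL

variable {Ω : Type*} [MeasurableSpace Ω] {P : Measure Ω} [IsProbabilityMeasure P]
  {b : Ω → ℝ → ℝ}

/-- events of the random walk -/
def lineEv (c h d : ℝ) (n : ℕ) : Set (Fin n → ℝ) :=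
  {x | ∃ k ≤ n, c * (k * h) + d ≤ ∑ i : Fin n, if (i : ℕ) < k then x i else 0}

theorem measurableSet_lineEv (c h d : ℝ) (n : ℕ) : MeasurableSet (lineEv c h d n) := by
  have : lineEv c h d n = ⋃ k : {k : ℕ // k ≤ n},
      {x | c * ((k : ℕ) * h) + d ≤ ∑ i : Fin n, if (i : ℕ) < k then x i else 0} := by
    ext x
    constructor
    · rintro ⟨k, hk, hx⟩
      exact Set.mem_iUnion.mpr ⟨⟨k, hk⟩, hx⟩
    · intro hx
      obtain ⟨⟨k, hk⟩, hx⟩ := Set.mem_iUnion.mp hx
      exact ⟨k, hk, hx⟩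
  rw [this]
  refine MeasurableSet.iUnion fun k => measurableSet_le measurable_const ?_
  refine Finset.measurable_sum _ fun i _ => ?_
  by_cases hi : (i : ℕ) < k
  · simp only [hi, if_true]
    exact measurable_pi_apply i
  · simp only [hi, if_false]
    exact measurable_const

/-- exponential moment of a Gaussian -/
theorem line_lintegral_exp {c h : ℝ} (hh : 0 < h) (a : ℝ) :
    ∫⁻ x, ENNReal.ofReal (Real.exp (c * x - a)) ∂(gaussianReal 0 (2 * h).toNNReal)
      = ENNReal.ofReal (Real.exp (c ^ 2 * h - a)) := by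
  have h1 : Integrable (fun x => Real.exp (c * x - a)) (gaussianReal 0 (2 * h).toNNReal) := by
    have := (integrable_exp_mul_gaussianReal (μ := 0) (v := (2 * h).toNNReal) c).mul_const
      (Real.exp (-a))
    refine this.congr (Eventually.of_forall fun x => ?_)
    simp only
    rw [← Real.exp_add, sub_eq_add_neg]
  rw [← ofReal_integral_eq_lintegral_ofReal h1 (Eventually.of_forall fun x => (Real.exp_pos _).le)]
  congr 1
  have h2 : ∀ x : ℝ, Real.exp (c * x - a) = Real.exp (c * x) * Real.exp (-a) := by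
    intro x
    rw [← Real.exp_add, sub_eq_add_neg]
  simp_rw [h2]
  rw [integral_mul_const]
  have h3 : ∫ x, Real.exp (c * x) ∂(gaussianReal 0 (2 * h).toNNReal)
      = Real.exp (0 * c + ((2 * h).toNNReal : ℝ) * c ^ 2 / 2) := by
    have := congrFun (mgf_fun_id_gaussianReal (μ := 0) (v := (2 * h).toNNReal)) c
    rw [← this, mgf]
  rw [h3, ← Real.exp_add]
  congr 1
  rw [Real.coe_toNNReal _ (by positivity)]
  ring

/-- exponential inequality for a Gaussian random walk (increments of variance `2 h`) -/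
theorem line_walk {c h : ℝ} (hc : 0 < c) (hh : 0 < h) (n : ℕ) : ∀ d : ℝ,
    (Measure.pi fun _ : Fin n => gaussianReal 0 (2 * h).toNNReal) (lineEv c h d n)
      ≤ ENNReal.ofReal (Real.exp (-(c * d))) := by
  induction n with
  | zero =>
    intro d
    by_cases hd : d ≤ 0
    · refine prob_le_one.trans ?_
      rw [← ENNReal.ofReal_one]
      apply ENNReal.ofReal_le_ofReal
      rw [Real.one_le_exp_iff]
      nlinarith
    · have : lineEv c h d 0 = ∅ := by
        ext x
        simp only [lineEv, Set.mem_ofPred_eq, Set.mem_empty_iff_false, iff_false, not_exists,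
          not_and, not_le]
        intro k hk
        have : k = 0 := by omega
        subst this
        simpa using lt_of_not_ge hd
      rw [this, measure_empty]
      exact zero_le
  | succ n ih =>
    intro d
    by_cases hd : d ≤ 0
    · refine prob_le_one.trans ?_
      rw [← ENNReal.ofReal_one]
      apply ENNReal.ofReal_le_ofReal
      rw [Real.one_le_exp_iff]
      nlinarith
    push Not at hd
    set μ := gaussianReal 0 (2 * h).toNNReal with hμ
    have hmp := measurePreserving_piFinSuccAbove (fun _ : Fin (n + 1) => μ) 0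
    have hset : lineEv c h d (n + 1)
        = (MeasurableEquiv.piFinSuccAbove (fun _ : Fin (n + 1) => ℝ) 0) ⁻¹'
          {q : ℝ × (Fin n → ℝ) | q.2 ∈ lineEv c h (d + c * h - q.1) n} := by
      ext x
      simp only [lineEv, Set.mem_ofPred_eq, Set.mem_preimage]
      have hval : (MeasurableEquiv.piFinSuccAbove (fun _ : Fin (n + 1) => ℝ) 0) x
          = (x 0, fun j => x j.succ) := rfl
      rw [hval]
      constructor
      · rintro ⟨k, hk, hx⟩
        rcases Nat.eq_zero_or_pos k with h0 | h0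
        · subst h0
          simp at hx
          linarith
        · obtain ⟨k', rfl⟩ : ∃ k', k = k' + 1 := ⟨k - 1, by omega⟩
          refine ⟨k', by omega, ?_⟩
          rw [Fin.sum_univ_succ] at hx
          simp only [Fin.val_zero, Nat.zero_lt_succ, if_true, Fin.val_succ,
            Nat.add_lt_add_iff_right] at hx
          push_cast at hx
          linarith
      · rintro ⟨k, hk, hx⟩
        refine ⟨k + 1, by omega, ?_⟩
        rw [Fin.sum_univ_succ]
        simp only [Fin.val_zero, Nat.zero_lt_succ, if_true, Fin.val_succ,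
          Nat.add_lt_add_iff_right]
        push_cast
        simp only at hx
        linarith
    have hms : MeasurableSet {q : ℝ × (Fin n → ℝ) | q.2 ∈ lineEv c h (d + c * h - q.1) n} := by
      have : {q : ℝ × (Fin n → ℝ) | q.2 ∈ lineEv c h (d + c * h - q.1) n}
          = ⋃ k : {k : ℕ // k ≤ n}, {q : ℝ × (Fin n → ℝ) | c * ((k : ℕ) * h) + (d + c * h - q.1)
            ≤ ∑ i : Fin n, if (i : ℕ) < k then q.2 i else 0} := by
        ext x
        constructor
        · rintro ⟨k, hk, hx⟩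
          exact Set.mem_iUnion.mpr ⟨⟨k, hk⟩, hx⟩
        · intro hx
          obtain ⟨⟨k, hk⟩, hx⟩ := Set.mem_iUnion.mp hx
          exact ⟨k, hk, hx⟩
      rw [this]
      refine MeasurableSet.iUnion fun k => measurableSet_le ?_ ?_
      · fun_prop
      · refine Finset.measurable_sum _ fun i _ => ?_
        by_cases hi : (i : ℕ) < k
        · simp only [hi, if_true]
          exact (measurable_pi_apply i).comp measurable_snd
        · simp only [hi, if_false]
          exact measurable_const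
    rw [hset, hmp.measure_preimage hms.nullMeasurableSet, Measure.prod_apply hms]
    calc ∫⁻ x, (Measure.pi fun _ : Fin n => μ)
          (Prod.mk x ⁻¹' {q : ℝ × (Fin n → ℝ) | q.2 ∈ lineEv c h (d + c * h - q.1) n}) ∂μ
        ≤ ∫⁻ x, ENNReal.ofReal (Real.exp (c * x - (c * d + c ^ 2 * h))) ∂μ := by
          refine lintegral_mono fun x => ?_
          refine (ih (d + c * h - x)).trans (ENNReal.ofReal_le_ofReal (le_of_eq ?_))
          congr 1
          ring
      _ = ENNReal.ofReal (Real.exp (-(c * d))) := by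
          rw [hμ, line_lintegral_exp hh]
          congr 2
          ring

theorem grid (hb : IsBM P b) {c d h : ℝ} (hc : 0 < c) (hh : 0 < h) (n : ℕ) :
    P {ω | ∃ k ≤ n, c * (k * h) + d ≤ b ω (k * h)} ≤ ENNReal.ofReal (Real.exp (-(c * d))) := by
  have hmono : StrictMono (fun i : ℕ => (i : ℝ) * h) := by
    intro i j hij
    exact mul_lt_mul_of_pos_right (by exact_mod_cast hij) hh
  have hinc := hb.incr n (fun i : ℕ => (i : ℝ) * h) hmono
  have hpi : (Measure.pi fun i : Fin n =>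
      gaussianReal 0 (2 * (((((i : ℕ) + 1 : ℕ) : ℝ)) * h - ((i : ℕ) : ℝ) * h)).toNNReal)
      = Measure.pi fun _ : Fin n => gaussianReal 0 (2 * h).toNNReal := by
    congr 1
    ext1 i
    congr 3
    push_cast
    ring
  have hinc' : P.map (fun ω (i : Fin n) => b ω (((((i : ℕ) + 1 : ℕ) : ℝ)) * h)
      - b ω (((i : ℕ) : ℝ) * h)) = Measure.pi fun _ : Fin n => gaussianReal 0 (2 * h).toNNReal := by
    rw [← hpi]
    exact hinc
  have hm : Measurable (fun ω (i : Fin n) => b ω (((((i : ℕ) + 1 : ℕ) : ℝ)) * h)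
      - b ω (((i : ℕ) : ℝ) * h)) :=
    measurable_pi_iff.mpr fun i => (hb.meas _).sub (hb.meas _)
  have hsum : ∀ ω, ∀ k ≤ n, ∑ i : Fin n, (if (i : ℕ) < k then
      (b ω (((((i : ℕ) + 1 : ℕ) : ℝ)) * h) - b ω (((i : ℕ) : ℝ) * h)) else 0) = b ω (k * h) := by
    intro ω k hk
    rw [Fin.sum_univ_eq_sum_range (fun i : ℕ => if i < k then
      (b ω (((i + 1 : ℕ) : ℝ) * h) - b ω ((i : ℝ) * h)) else 0) n, ← Finset.sum_filter]
    have : (Finset.range n).filter (fun i => i < k) = Finset.range k := by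
      ext i
      simp only [Finset.mem_filter, Finset.mem_range]
      omega
    rw [this, Finset.sum_range_sub (fun i : ℕ => b ω ((i : ℝ) * h))]
    simp [hb.zero ω]
  have hset : {ω | ∃ k ≤ n, c * (k * h) + d ≤ b ω (k * h)}
      = (fun ω (i : Fin n) => b ω (((((i : ℕ) + 1 : ℕ) : ℝ)) * h)
      - b ω (((i : ℕ) : ℝ) * h)) ⁻¹' lineEv c h d n := by
    ext ω
    simp only [lineEv, Set.mem_ofPred_eq, Set.mem_preimage]
    refine exists_congr fun k => and_congr_right fun hk => ?_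
    rw [hsum ω k hk]
  rw [hset, ← Measure.map_apply hm (measurableSet_lineEv c h d n), hinc']
  exact line_walk hc hh n d

theorem line_exp_aux (hb : IsBM P b) {c d d' : ℝ} (hc : 0 < c) (hd : d' < d) :
    P {ω | ∃ x, 0 ≤ x ∧ c * x + d ≤ b ω x} ≤ ENNReal.ofReal (Real.exp (-(c * d'))) := by
  set G : ℕ → Set Ω := fun m =>
    {ω | ∃ k : ℕ, k ≤ 4 ^ m ∧ c * ((k : ℝ) * (2 ^ m)⁻¹) + d' ≤ b ω ((k : ℝ) * (2 ^ m)⁻¹)} with hG
  have hGmono : Monotone G := by
    refine monotone_nat_of_le_succ fun m => ?_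
    rintro ω ⟨k, hk, hω⟩
    refine ⟨2 * k, ?_, ?_⟩
    · rw [pow_succ]
      have : 0 < 4 ^ m := by positivity
      omega
    · have : (((2 * k : ℕ) : ℝ)) * (2 ^ (m + 1))⁻¹ = (k : ℝ) * (2 ^ m)⁻¹ := by
        push_cast
        rw [pow_succ]
        field_simp
      rw [this]
      exact hω
  have hsub : {ω | ∃ x, 0 ≤ x ∧ c * x + d ≤ b ω x} ⊆ ⋃ m, G m := by
    rintro ω ⟨x, hx0, hx⟩
    have hcont : ContinuousAt (fun y => b ω y - c * y) x := by
      have := hb.cont ω
      fun_prop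
    have hev : ∀ᶠ y in 𝓝 x, d' < b ω y - c * y :=
      hcont.eventually (lt_mem_nhds (by simp only; linarith))
    -- the dyadic approximations
    have hlim : Tendsto (fun m : ℕ => ((⌊x * 2 ^ m⌋₊ : ℝ)) * (2 ^ m)⁻¹) atTop (𝓝 x) := by
      have h1 : ∀ m : ℕ, |((⌊x * 2 ^ m⌋₊ : ℝ)) * (2 ^ m)⁻¹ - x| ≤ (1 / 2) ^ m := by
        intro m
        have h2 : (0 : ℝ) < 2 ^ m := by positivity
        have h3 : (⌊x * 2 ^ m⌋₊ : ℝ) ≤ x * 2 ^ m := Nat.floor_le (by positivity)
        have h4 : x * 2 ^ m < ⌊x * 2 ^ m⌋₊ + 1 := Nat.lt_floor_add_one _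
        rw [one_div, inv_pow, abs_le]
        have h5 : ((⌊x * 2 ^ m⌋₊ : ℝ)) * (2 ^ m)⁻¹ - x = (⌊x * 2 ^ m⌋₊ - x * 2 ^ m) * (2 ^ m)⁻¹ := by
          field_simp
        rw [h5]
        constructor
        · have : (-1 : ℝ) * (2 ^ m)⁻¹ ≤ (⌊x * 2 ^ m⌋₊ - x * 2 ^ m) * (2 ^ m)⁻¹ :=
            mul_le_mul_of_nonneg_right (by linarith) (by positivity)
          linarith
        · have : (⌊x * 2 ^ m⌋₊ - x * 2 ^ m) * (2 ^ m)⁻¹ ≤ 0 * ((2 : ℝ) ^ m)⁻¹ :=
            mul_le_mul_of_nonneg_right (by linarith) (by positivity)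
          have : (0 : ℝ) ≤ ((2 : ℝ) ^ m)⁻¹ := by positivity
          linarith
      rw [tendsto_iff_dist_tendsto_zero]
      refine squeeze_zero (fun _ => dist_nonneg) (fun m => ?_)
        (tendsto_pow_atTop_nhds_zero_of_lt_one (r := (1 / 2 : ℝ)) (by norm_num) (by norm_num))
      rw [Real.dist_eq]
      exact h1 m
    have hbig : ∀ᶠ m : ℕ in atTop, x ≤ 2 ^ m :=
      (tendsto_pow_atTop_atTop_of_one_lt (by norm_num : (1 : ℝ) < 2)).eventually_ge_atTop x
    obtain ⟨m, hm1, hm2⟩ := ((hlim.eventually hev).and hbig).exists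
    refine Set.mem_iUnion.mpr ⟨m, ⌊x * 2 ^ m⌋₊, ?_, by linarith⟩
    have h1 : x * 2 ^ m ≤ (4 : ℝ) ^ m := by
      have : (4 : ℝ) ^ m = 2 ^ m * 2 ^ m := by rw [← mul_pow]; norm_num
      rw [this]
      exact mul_le_mul_of_nonneg_right hm2 (by positivity)
    have h2 : ⌊x * 2 ^ m⌋₊ ≤ ⌊((4 ^ m : ℕ) : ℝ)⌋₊ := Nat.floor_le_floor (by push_cast; exact h1)
    rwa [Nat.floor_natCast] at h2
  refine (measure_mono hsub).trans ?_
  rw [hGmono.measure_iUnion]
  exact iSup_le fun m => grid hb hc (by positivity) _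

theorem line_exp (hb : IsBM P b) {c d : ℝ} (hc : 0 < c) :
    P {ω | ∃ x, 0 ≤ x ∧ c * x + d ≤ b ω x} ≤ ENNReal.ofReal (Real.exp (-(c * d))) := by
  have h1 : Tendsto (fun d' : ℝ => ENNReal.ofReal (Real.exp (-(c * d')))) (𝓝[<] d)
      (𝓝 (ENNReal.ofReal (Real.exp (-(c * d))))) := by
    refine (ENNReal.continuous_ofReal.tendsto _).comp ?_
    have : Continuous fun d' : ℝ => Real.exp (-(c * d')) := by fun_prop
    exact (this.tendsto d).mono_left nhdsWithin_le_nhds
  refine ge_of_tendsto h1 ?_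
  filter_upwards [self_mem_nhdsWithin] with d' hd'
  exact line_exp_aux hb hc hd'

theorem sup_le (hb : IsBM P b) {T r : ℝ} (hT : 0 < T) (hr : 0 ≤ r) :
    P {ω | ∃ x ∈ Set.Icc 0 T, r ≤ b ω x} ≤ ENNReal.ofReal (2 * Real.exp (-(r ^ 2) / (4 * T))) := by
  rcases eq_or_lt_of_le hr with h0 | h0
  · subst h0
    refine prob_le_one.trans ?_
    rw [← ENNReal.ofReal_one]
    apply ENNReal.ofReal_le_ofReal
    simp
  · have hsub : {ω | ∃ x ∈ Set.Icc 0 T, r ≤ b ω x}
        ⊆ {ω | ∃ x, 0 ≤ x ∧ (r / (2 * T)) * x + r / 2 ≤ b ω x} := by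
      rintro ω ⟨x, hx, hxr⟩
      refine ⟨x, hx.1, ?_⟩
      have : r / (2 * T) * x ≤ r / (2 * T) * T :=
        mul_le_mul_of_nonneg_left hx.2 (by positivity)
      have h2 : r / (2 * T) * T = r / 2 := by field_simp
      linarith
    refine (measure_mono hsub).trans ((line_exp hb (by positivity)).trans ?_)
    apply ENNReal.ofReal_le_ofReal
    have h3 : -(r / (2 * T) * (r / 2)) = -(r ^ 2) / (4 * T) := by
      field_simp
      ring
    rw [h3]
    have := Real.exp_pos (-(r ^ 2) / (4 * T))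
    linarith

theorem line (hb : IsBM P b) {c d : ℝ} (hc : 0 < c) (hd : 0 < d) :
    P {ω | ∃ x, 0 ≤ x ∧ c * x + d ≤ b ω x} ≤ ENNReal.ofReal (4 * Real.exp (-(c * d) / 4)) := by
  refine (line_exp hb hc).trans (ENNReal.ofReal_le_ofReal ?_)
  have h1 : Real.exp (-(c * d)) ≤ Real.exp (-(c * d) / 4) := by
    apply Real.exp_le_exp.mpr
    have := mul_pos hc hd
    linarith
  have := Real.exp_pos (-(c * d) / 4)
  linarith

theorem growth' (hb : IsBM P b) {c : ℝ} (hc : 0 < c) : ∃ g : ℝ, 0 < g ∧ ∃ K₀ : ℝ,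
    ∀ K, K₀ ≤ K → P {ω | ∃ x, K ≤ |x| ∧ c * x ^ 2 ≤ |b ω x|} ≤
      ENNReal.ofReal (Real.exp (-g * K ^ 3)) := by
  refine ⟨c ^ 2 / 8, by positivity, max 1 (16 / c ^ 2), fun K hK => ?_⟩
  have hK1 : 1 ≤ K := (le_max_left _ _).trans hK
  have hK2 : 16 / c ^ 2 ≤ K := (le_max_right _ _).trans hK
  have hKpos : 0 < K := by linarith
  have hbr := reflect hb
  have hbn := neg hb
  have hbrn := neg (reflect hb)
  have key : ∀ (b' : Ω → ℝ → ℝ), IsBM P b' →
      P {ω | ∃ x, 0 ≤ x ∧ c * K / 2 * x + c * K ^ 2 / 2 ≤ b' ω x}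
        ≤ ENNReal.ofReal (Real.exp (-(c ^ 2 * K ^ 3 / 4))) := by
    intro b' hb'
    refine (line_exp hb' (by positivity)).trans (ENNReal.ofReal_le_ofReal (le_of_eq ?_))
    congr 1
    ring
  have hquad : ∀ x, K ≤ x → c * K / 2 * x + c * K ^ 2 / 2 ≤ c * x ^ 2 := by
    intro x hx
    have : 0 ≤ c * ((x - K) * (x + K / 2)) :=
      mul_nonneg hc.le (mul_nonneg (by linarith) (by linarith))
    nlinarith
  have hsub : {ω | ∃ x, K ≤ |x| ∧ c * x ^ 2 ≤ |b ω x|} ⊆
      ({ω | ∃ x, 0 ≤ x ∧ c * K / 2 * x + c * K ^ 2 / 2 ≤ b ω x} ∪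
        {ω | ∃ x, 0 ≤ x ∧ c * K / 2 * x + c * K ^ 2 / 2 ≤ -b ω x}) ∪
      ({ω | ∃ x, 0 ≤ x ∧ c * K / 2 * x + c * K ^ 2 / 2 ≤ b ω (-x)} ∪
        {ω | ∃ x, 0 ≤ x ∧ c * K / 2 * x + c * K ^ 2 / 2 ≤ -b ω (-x)}) := by
    rintro ω ⟨x, hx, hbx⟩
    rcases le_total 0 x with h0 | h0
    · left
      rw [abs_of_nonneg h0] at hx
      have hq := hquad x hx
      rcases le_total 0 (b ω x) with h1 | h1
      · left
        rw [abs_of_nonneg h1] at hbx
        exact ⟨x, h0, hq.trans hbx⟩
      · right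
        rw [abs_of_nonpos h1] at hbx
        exact ⟨x, h0, hq.trans hbx⟩
    · right
      rw [abs_of_nonpos h0] at hx
      have hq := hquad (-x) hx
      rw [neg_sq] at hq
      rcases le_total 0 (b ω x) with h1 | h1
      · left
        rw [abs_of_nonneg h1] at hbx
        exact ⟨-x, by linarith, by rw [neg_neg]; exact hq.trans hbx⟩
      · right
        rw [abs_of_nonpos h1] at hbx
        exact ⟨-x, by linarith, by rw [neg_neg]; exact hq.trans hbx⟩
  set e := ENNReal.ofReal (Real.exp (-(c ^ 2 * K ^ 3 / 4))) with he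
  have htot : P {ω | ∃ x, K ≤ |x| ∧ c * x ^ 2 ≤ |b ω x|} ≤ (e + e) + (e + e) := by
    refine (measure_mono hsub).trans ((measure_union_le _ _).trans (add_le_add
      ((measure_union_le _ _).trans (add_le_add (key b hb) (key _ hbn)))
      ((measure_union_le _ _).trans (add_le_add (key _ hbr) (key _ hbrn)))))
  refine htot.trans ?_
  rw [he, ← ENNReal.ofReal_add (Real.exp_pos _).le (Real.exp_pos _).le,
    ← ENNReal.ofReal_add (by positivity) (by positivity)]
  apply ENNReal.ofReal_le_ofReal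
  have hc2 : 16 ≤ c ^ 2 * K := by
    rw [div_le_iff₀ (by positivity)] at hK2
    linarith
  have hK3 : K ≤ K ^ 3 := by nlinarith [mul_self_nonneg (K - 1), mul_pos hKpos hKpos]
  have h16 : 2 ≤ c ^ 2 * K ^ 3 / 8 := by
    have : c ^ 2 * K ≤ c ^ 2 * K ^ 3 := mul_le_mul_of_nonneg_left hK3 (by positivity)
    linarith
  have h4 : (4 : ℝ) ≤ Real.exp (c ^ 2 * K ^ 3 / 8) := by
    have h5 : Real.exp 2 ≤ Real.exp (c ^ 2 * K ^ 3 / 8) := Real.exp_le_exp.mpr h16
    have h6 : Real.exp 2 = Real.exp 1 * Real.exp 1 := by rw [← Real.exp_add]; norm_num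
    have h7 := Real.exp_one_gt_d9
    nlinarith
  have h8 : Real.exp (-(c ^ 2 / 8) * K ^ 3) = Real.exp (c ^ 2 * K ^ 3 / 8)
      * Real.exp (-(c ^ 2 * K ^ 3 / 4)) := by
    rw [← Real.exp_add]
    congr 1
    ring
  rw [h8]
  have h9 := Real.exp_pos (-(c ^ 2 * K ^ 3 / 4))
  nlinarith

theorem growth (hb : IsBM P b) {c : ℝ} (hc : 0 < c) :
    Tendsto (fun K : ℝ => P {ω | ∃ x, K ≤ |x| ∧ c * x ^ 2 ≤ |b ω x|}) atTop (𝓝 0) := by
  obtain ⟨g, hg, K₀, h⟩ := growth' hb hc
  have h1 : Tendsto (fun K : ℝ => ENNReal.ofReal (Real.exp (-g * K ^ 3))) atTop (𝓝 0) := by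
    rw [← ENNReal.ofReal_zero]
    refine (ENNReal.continuous_ofReal.tendsto _).comp ?_
    refine Real.tendsto_exp_atBot.comp ?_
    exact (tendsto_pow_atTop (by norm_num)).const_mul_atTop_of_neg (by linarith)
  refine tendsto_of_tendsto_of_tendsto_of_le_of_le' tendsto_const_nhds h1
    (Eventually.of_forall fun _ => zero_le) ?_
  filter_upwards [eventually_ge_atTop K₀] with K hK using h K hK

end Pool.Agent.H55.BM
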