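import Pool.Agent.H55.BM.Euc

/-!
# Brunn-Minkowski for thickenings of open sets in three-space
-/

namespace Pool.H55.BM

open MeasureTheory Set
open scoped ENNReal Pointwise

theorem thick3 {A : Set (EuclideanSpace ℝ (Fin 3))} (hA : IsOpen A)
    (hb : Bornology.IsBounded A) {e : ℝ} (he : 0 < e) :
    volume.real A + e * (36 * Real.pi) ^ (1/3 : ℝ) * (volume.real A) ^ (2/3 : ℝ) ≤
      volume.real (Metric.thickening e A) := by
  rcases A.eq_empty_or_nonempty with rfl | hne
  · have : ((0 : ℝ)) ^ (2/3 : ℝ) = 0 := Real.zero_rpow (by norm_num)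
    simp [this]
  have hfin : volume A ≠ ∞ := hb.measure_lt_top.ne
  have hTfin : volume (Metric.thickening e A) ≠ ∞ := hb.thickening.measure_lt_top.ne
  have hV : 0 < volume.real A := by
    rw [measureReal_def]
    exact ENNReal.toReal_pos (hA.measure_pos volume hne).ne' hfin
  set V := volume.real A with hVdef
  set α : ℝ := V ^ (1/3 : ℝ) with hα
  set γ : ℝ := (Real.pi * 4 / 3) ^ (1/3 : ℝ) with hγ
  have hα0 : 0 < α := Real.rpow_pos_of_pos hV _
  have hγ0 : 0 < γ := Real.rpow_pos_of_pos (by positivity) _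
  have hα3 : α ^ 3 = V := by
    rw [hα, ← Real.rpow_natCast, ← Real.rpow_mul hV.le]; norm_num
  have hγ3 : γ ^ 3 = Real.pi * 4 / 3 := by
    rw [hγ, ← Real.rpow_natCast, ← Real.rpow_mul (by positivity)]; norm_num
  have hAv : volume A = ENNReal.ofReal (α ^ 3) := by
    rw [hα3, hVdef, ofReal_measureReal hfin]
  have hBv : volume (Metric.ball (0 : EuclideanSpace ℝ (Fin 3)) e) =
      ENNReal.ofReal ((e * γ) ^ 3) := by
    rw [EuclideanSpace.volume_ball_fin_three, mul_pow, hγ3, ENNReal.ofReal_mul (by positivity),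
      ENNReal.ofReal_pow he.le]
  have h1 := bm_add hA.measurableSet Metric.isOpen_ball.measurableSet
    (Metric.isOpen_thickening (δ := e) (E := A)).measurableSet (by
      intro x hx y hy
      rw [Metric.mem_thickening_iff]
      refine ⟨x, hx, ?_⟩
      rw [dist_self_add_left]
      simpa using hy) hα0 (mul_pos he hγ0) hAv hBv
  have h2 : (α + e * γ) ^ 3 ≤ volume.real (Metric.thickening e A) := by
    rw [measureReal_def]
    exact (ENNReal.ofReal_le_iff_le_toReal hTfin).1 h1
  have h3 : V ^ (2/3 : ℝ) = α ^ 2 := by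
    rw [hα, ← Real.rpow_natCast, ← Real.rpow_mul hV.le]; norm_num
  have h4 : (36 * Real.pi) ^ (1/3 : ℝ) = 3 * γ := by
    have : 36 * Real.pi = (3 : ℝ) ^ (3 : ℕ) * (Real.pi * 4 / 3) := by ring
    rw [this, Real.mul_rpow (by positivity) (by positivity), ← hγ]
    congr 1
    rw [← Real.rpow_natCast, ← Real.rpow_mul (by norm_num)]; norm_num
  rw [h3, h4]
  refine le_trans ?_ h2
  have h5 : 0 < e * γ := mul_pos he hγ0
  nlinarith [mul_pos hα0 (pow_pos h5 2), pow_pos h5 3, hα3]

end Pool.H55.BM
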