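import Mathlib

/-!
# The one-dimensional Brunn-Minkowski and Prekopa-Leindler inequalities
-/

namespace Pool.H55.BM

open MeasureTheory Set
open scoped ENNReal Pointwise

/-- One-dimensional Brunn-Minkowski, compact sets. -/
theorem bm_one_compact {K L : Set ℝ} (hK : IsCompact K) (hL : IsCompact L)
    (hK0 : K.Nonempty) (hL0 : L.Nonempty) :
    volume K + volume L ≤ volume (K + L) := by
  obtain ⟨a, haK, ha⟩ := hK.exists_isGreatest hK0
  obtain ⟨b, hbL, hb⟩ := hL.exists_isLeast hL0
  set K' : Set ℝ := (fun x => x + b) '' K with hK'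
  set L' : Set ℝ := (fun x => a + x) '' L with hL'
  have hKm : volume K' = volume K := by
    rw [hK', image_add_right, measure_preimage_add_right]
  have hLm : volume L' = volume L := by
    rw [hL', image_add_left, measure_preimage_add]
  have hL'meas : MeasurableSet L' := by
    have : IsCompact L' := hL.image (continuous_const.add continuous_id)
    exact this.measurableSet
  have hinter : volume (K' ∩ L') = 0 := by
    have hsub : K' ∩ L' ⊆ {a + b} := by
      rintro z ⟨⟨x, hx, hxz⟩, ⟨y, hy, hyz⟩⟩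
      have h1 : x ≤ a := ha hx
      have h2 : b ≤ y := hb hy
      simp only at hxz hyz
      rw [mem_singleton_iff]
      linarith
    exact measure_mono_null hsub (by simp)
  have hunion : K' ∪ L' ⊆ K + L := by
    rintro z (⟨x, hx, rfl⟩ | ⟨y, hy, rfl⟩)
    · exact add_mem_add hx hbL
    · exact add_mem_add haK hy
  calc volume K + volume L = volume K' + volume L' := by rw [hKm, hLm]
    _ = volume (K' ∪ L') + volume (K' ∩ L') := (measure_union_add_inter K' hL'meas).symm
    _ = volume (K' ∪ L') := by rw [hinter, add_zero]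
    _ ≤ volume (K + L) := measure_mono hunion

/-- One-dimensional Brunn-Minkowski, measurable sets, outer measure of any superset of the sum. -/
theorem bm_one {A B C : Set ℝ} (hA : MeasurableSet A) (hB : MeasurableSet B)
    (hA0 : A.Nonempty) (hB0 : B.Nonempty) (hC : ∀ x ∈ A, ∀ y ∈ B, x + y ∈ C) :
    volume A + volume B ≤ volume C := by
  obtain ⟨a, ha⟩ := hA0
  obtain ⟨b, hb⟩ := hB0
  have key : ∀ K, (K ⊆ A ∧ IsCompact K) → ∀ L, (L ⊆ B ∧ IsCompact L) →
      volume K + volume L ≤ volume C := by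
    rintro K ⟨hKA, hK⟩ L ⟨hLB, hL⟩
    have hK' : IsCompact (insert a K) := hK.insert a
    have hL' : IsCompact (insert b L) := hL.insert b
    have h1 : insert a K + insert b L ⊆ C := by
      rintro z ⟨x, hx, y, hy, rfl⟩
      exact hC x (insert_subset ha hKA hx) y (insert_subset hb hLB hy)
    calc volume K + volume L ≤ volume (insert a K) + volume (insert b L) :=
          add_le_add (measure_mono (subset_insert _ _)) (measure_mono (subset_insert _ _))
      _ ≤ volume (insert a K + insert b L) :=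
          bm_one_compact hK' hL' (insert_nonempty _ _) (insert_nonempty _ _)
      _ ≤ volume C := measure_mono h1
  have eA : volume A = ⨆ K, ⨆ _ : (K ⊆ A ∧ IsCompact K), volume K := by
    rw [hA.measure_eq_iSup_isCompact]; simp only [iSup_and]
  have eB : volume B = ⨆ K, ⨆ _ : (K ⊆ B ∧ IsCompact K), volume K := by
    rw [hB.measure_eq_iSup_isCompact]; simp only [iSup_and]
  rw [eA, eB]
  exact ENNReal.biSup_add_biSup_le' ⟨∅, empty_subset _, isCompact_empty⟩
    ⟨∅, empty_subset _, isCompact_empty⟩ key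

/-- Weighted arithmetic-geometric mean inequality in extended nonnegative reals. -/
theorem amgm {a b : ℝ} (ha : 0 < a) (hb : 0 < b) (hab : a + b = 1) (x y : ℝ≥0∞) :
    x ^ a * y ^ b ≤ ENNReal.ofReal a * x + ENNReal.ofReal b * y := by
  rcases eq_or_ne x ∞ with rfl | hx
  · have : ENNReal.ofReal a * ∞ = ∞ := ENNReal.mul_top (by simpa using ha)
    rw [this, top_add]; exact le_top
  rcases eq_or_ne y ∞ with rfl | hy
  · have : ENNReal.ofReal b * ∞ = ∞ := ENNReal.mul_top (by simpa using hb)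
    rw [this, add_top]; exact le_top
  lift x to NNReal using hx
  lift y to NNReal using hy
  have h := NNReal.geom_mean_le_arith_mean2_weighted a.toNNReal b.toNNReal x y
    (by rw [← Real.toNNReal_add ha.le hb.le, hab, Real.toNNReal_one])
  rw [Real.coe_toNNReal a ha.le, Real.coe_toNNReal b hb.le] at h
  rw [← ENNReal.coe_rpow_of_nonneg _ ha.le, ← ENNReal.coe_rpow_of_nonneg _ hb.le]
  unfold ENNReal.ofReal
  exact_mod_cast h

/-- One-dimensional Prekopa-Leindler, normalised real form. -/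
theorem pl_one_real {f g h : ℝ → ℝ} {a b : ℝ} (ha : 0 < a) (hb : 0 < b) (hab : a + b = 1)
    (hf : Measurable f) (hg : Measurable g) (hh : Measurable h)
    (hf0 : ∀ x, 0 ≤ f x) (hg0 : ∀ x, 0 ≤ g x) (hh0 : ∀ x, 0 ≤ h x)
    (hf1 : ∀ x, f x ≤ 1) (hg1 : ∀ x, g x ≤ 1)
    (hfs : ∀ t < 1, ∃ x, t < f x) (hgs : ∀ t < 1, ∃ x, t < g x)
    (H : ∀ x y, f x ^ a * g y ^ b ≤ h (a * x + b * y)) :
    ENNReal.ofReal a * (∫⁻ x, ENNReal.ofReal (f x)) +
      ENNReal.ofReal b * (∫⁻ x, ENNReal.ofReal (g x)) ≤ ∫⁻ x, ENNReal.ofReal (h x) := by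
  rw [lintegral_eq_lintegral_meas_lt volume (Filter.Eventually.of_forall hf0) hf.aemeasurable,
    lintegral_eq_lintegral_meas_lt volume (Filter.Eventually.of_forall hg0) hg.aemeasurable,
    lintegral_eq_lintegral_meas_lt volume (Filter.Eventually.of_forall hh0) hh.aemeasurable]
  have mf : Measurable fun t : ℝ => volume {x | t < f x} :=
    (show Antitone fun t : ℝ => volume {x | t < f x} from
      fun s t hst => measure_mono fun x hx => lt_of_le_of_lt hst hx).measurable
  rw [← lintegral_const_mul _ mf, ← lintegral_const_mul' _ _ ENNReal.ofReal_ne_top,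
    ← lintegral_add_left (mf.const_mul _)]
  refine setLIntegral_mono' measurableSet_Ioi fun t ht => ?_
  have ht0 : 0 < t := ht
  rcases lt_or_ge t 1 with ht1 | ht1
  · have hAm : MeasurableSet (a • {x | t < f x}) :=
      (measurableSet_lt measurable_const hf).const_smul₀ a
    have hBm : MeasurableSet (b • {x | t < g x}) :=
      (measurableSet_lt measurable_const hg).const_smul₀ b
    have hA0 : (a • {x | t < f x}).Nonempty := by
      obtain ⟨x, hx⟩ := hfs t ht1
      exact ⟨a • x, smul_mem_smul_set hx⟩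
    have hB0 : (b • {x | t < g x}).Nonempty := by
      obtain ⟨x, hx⟩ := hgs t ht1
      exact ⟨b • x, smul_mem_smul_set hx⟩
    have := bm_one hAm hBm hA0 hB0 (C := {x | t < h x}) (by
      rintro _ ⟨x, hx, rfl⟩ _ ⟨y, hy, rfl⟩
      simp only [mem_ofPred_eq, smul_eq_mul] at hx hy ⊢
      refine lt_of_lt_of_le ?_ (H x y)
      calc t = t ^ a * t ^ b := by rw [← Real.rpow_add ht0, hab, Real.rpow_one]
        _ < f x ^ a * g y ^ b := by
            apply mul_lt_mul'' (Real.rpow_lt_rpow ht0.le hx ha) (Real.rpow_lt_rpow ht0.le hy hb)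
              (Real.rpow_nonneg ht0.le _) (Real.rpow_nonneg ht0.le _))
    rw [Measure.addHaar_smul, Measure.addHaar_smul, Module.finrank_self, pow_one, pow_one,
      abs_of_pos ha, abs_of_pos hb] at this
    exact this
  · have e1 : {x | t < f x} = ∅ := by
      ext x; simp only [mem_ofPred_eq, mem_empty_iff_false, iff_false, not_lt]
      exact (hf1 x).trans ht1
    have e2 : {x | t < g x} = ∅ := by
      ext x; simp only [mem_ofPred_eq, mem_empty_iff_false, iff_false, not_lt]
      exact (hg1 x).trans ht1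
    rw [e1, e2]; simp

/-- One-dimensional Prekopa-Leindler for bounded functions. -/
theorem pl_one_bdd {f g h : ℝ → ℝ≥0∞} {a b : ℝ} (ha : 0 < a) (hb : 0 < b) (hab : a + b = 1)
    (hf : Measurable f) (hg : Measurable g) (hh : Measurable h)
    (hM : (⨆ x, f x) ≠ ∞) (hN : (⨆ x, g x) ≠ ∞)
    (H : ∀ x y, f x ^ a * g y ^ b ≤ h (a * x + b * y)) :
    (∫⁻ x, f x) ^ a * (∫⁻ x, g x) ^ b ≤ ∫⁻ x, h x := by
  set M := ⨆ x, f x with hMdef
  set N := ⨆ x, g x with hNdef
  have hfM : ∀ x, f x ≤ M := le_iSup f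
  have hgN : ∀ x, g x ≤ N := le_iSup g
  rcases eq_or_ne M 0 with hM0 | hM0
  · have : ∫⁻ x, f x = 0 := by
      have : f = fun _ => 0 := funext fun x => le_antisymm (hM0 ▸ hfM x) bot_le
      rw [this]; simp
    rw [this, ENNReal.zero_rpow_of_pos ha, zero_mul]; exact bot_le
  rcases eq_or_ne N 0 with hN0 | hN0
  · have : ∫⁻ x, g x = 0 := by
      have : g = fun _ => 0 := funext fun x => le_antisymm (hN0 ▸ hgN x) bot_le
      rw [this]; simp
    rw [this, ENNReal.zero_rpow_of_pos hb, mul_zero]; exact bot_le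
  have hMa0 : M ^ a ≠ 0 := by simp [ENNReal.rpow_eq_zero_iff, hM0, hM, ha]
  have hMaT : M ^ a ≠ ∞ := ENNReal.rpow_ne_top_of_nonneg ha.le hM
  have hNb0 : N ^ b ≠ 0 := by simp [ENNReal.rpow_eq_zero_iff, hN0, hN, hb]
  have hNbT : N ^ b ≠ ∞ := ENNReal.rpow_ne_top_of_nonneg hb.le hN
  set c := M ^ a * N ^ b with hc
  have hc0 : c ≠ 0 := mul_ne_zero hMa0 hNb0
  have hcT : c ≠ ∞ := ENNReal.mul_ne_top hMaT hNbT
  have hfle : ∀ x, f x / M ≤ 1 := fun x => by
    rw [ENNReal.div_le_iff hM0 hM, one_mul]; exact hfM x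
  have hgle : ∀ x, g x / N ≤ 1 := fun x => by
    rw [ENNReal.div_le_iff hN0 hN, one_mul]; exact hgN x
  have hfT : ∀ x, f x / M ≠ ∞ := fun x => ne_top_of_le_ne_top ENNReal.one_ne_top (hfle x)
  have hgT : ∀ x, g x / N ≠ ∞ := fun x => ne_top_of_le_ne_top ENNReal.one_ne_top (hgle x)
  have hhT : ∀ z, min (h z / c) 1 ≠ ∞ := fun z =>
    ne_top_of_le_ne_top ENNReal.one_ne_top (min_le_right _ _)
  have hsup : ∀ (u : ℝ → ℝ≥0∞) (K : ℝ≥0∞), K = ⨆ x, u x → K ≠ 0 → K ≠ ∞ →
      ∀ t < (1 : ℝ), ∃ x, t < (u x / K).toReal := by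
    intro u K hK hK0 hKT t ht
    rcases lt_or_ge t 0 with ht0 | ht0
    · exact ⟨0, ht0.trans_le ENNReal.toReal_nonneg⟩
    · have h1 : ENNReal.ofReal t * K < ⨆ x, u x := by
        rw [← hK]
        calc ENNReal.ofReal t * K < 1 * K := by
              apply ENNReal.mul_lt_mul_left hK0 hKT
              rw [← ENNReal.ofReal_one]
              exact (ENNReal.ofReal_lt_ofReal_iff one_pos).2 ht
          _ = K := one_mul K
      obtain ⟨x, hx⟩ := lt_iSup_iff.1 h1
      refine ⟨x, ?_⟩
      have hux : u x ≤ K := hK ▸ le_iSup u x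
      have h2 : ENNReal.ofReal t < u x / K := by
        rw [ENNReal.lt_div_iff_mul_lt (Or.inl hK0) (Or.inl hKT)]; exact hx
      have h3 : u x / K ≠ ∞ := ENNReal.div_ne_top (ne_top_of_le_ne_top hKT hux) hK0
      exact (ENNReal.ofReal_lt_iff_lt_toReal ht0 h3).1 h2
  have main := pl_one_real (f := fun x => (f x / M).toReal) (g := fun x => (g x / N).toReal)
    (h := fun z => (min (h z / c) 1).toReal) ha hb hab
    (hf.div_const M).ennreal_toReal (hg.div_const N).ennreal_toReal
    ((hh.div_const c).min measurable_const).ennreal_toReal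
    (fun _ => ENNReal.toReal_nonneg) (fun _ => ENNReal.toReal_nonneg)
    (fun _ => ENNReal.toReal_nonneg)
    (fun x => by
      have := (ENNReal.toReal_le_toReal (hfT x) ENNReal.one_ne_top).2 (hfle x)
      simpa using this)
    (fun x => by
      have := (ENNReal.toReal_le_toReal (hgT x) ENNReal.one_ne_top).2 (hgle x)
      simpa using this)
    (hsup f M rfl hM0 hM) (hsup g N rfl hN0 hN)
    (by
      intro x y
      rw [ENNReal.toReal_rpow, ENNReal.toReal_rpow, ← ENNReal.toReal_mul]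
      refine (ENNReal.toReal_le_toReal ?_ (hhT _)).2 (le_min ?_ ?_)
      · exact ENNReal.mul_ne_top (ENNReal.rpow_ne_top_of_nonneg ha.le (hfT x))
          (ENNReal.rpow_ne_top_of_nonneg hb.le (hgT y))
      · rw [ENNReal.le_div_iff_mul_le (Or.inl hc0) (Or.inl hcT)]
        refine le_trans (le_of_eq ?_) (H x y)
        rw [ENNReal.div_rpow_of_nonneg _ _ ha.le, ENNReal.div_rpow_of_nonneg _ _ hb.le, hc]
        calc f x ^ a / M ^ a * (g y ^ b / N ^ b) * (M ^ a * N ^ b)
            = (f x ^ a / M ^ a * M ^ a) * (g y ^ b / N ^ b * N ^ b) := by ring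
          _ = f x ^ a * g y ^ b := by
              rw [ENNReal.div_mul_cancel hMa0 hMaT, ENNReal.div_mul_cancel hNb0 hNbT]
      · calc (f x / M) ^ a * (g y / N) ^ b ≤ 1 ^ a * 1 ^ b := by
              gcongr
              · exact hfle x
              · exact hgle y
          _ = 1 := by simp)
  have e1 : ∫⁻ x, ENNReal.ofReal ((f x / M).toReal) = (∫⁻ x, f x) / M := by
    simp_rw [ENNReal.ofReal_toReal (hfT _), div_eq_mul_inv]
    rw [lintegral_mul_const _ hf]
  have e2 : ∫⁻ x, ENNReal.ofReal ((g x / N).toReal) = (∫⁻ x, g x) / N := by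
    simp_rw [ENNReal.ofReal_toReal (hgT _), div_eq_mul_inv]
    rw [lintegral_mul_const _ hg]
  have e3 : ∫⁻ z, ENNReal.ofReal ((min (h z / c) 1).toReal) ≤ (∫⁻ z, h z) / c := by
    simp_rw [ENNReal.ofReal_toReal (hhT _)]
    calc ∫⁻ z, min (h z / c) 1 ≤ ∫⁻ z, h z / c := lintegral_mono fun z => min_le_left _ _
      _ = (∫⁻ z, h z) / c := by
          simp_rw [div_eq_mul_inv]
          rw [lintegral_mul_const _ hh]
  rw [e1, e2] at main
  have h4 := (amgm ha hb hab ((∫⁻ x, f x) / M) ((∫⁻ x, g x) / N)).trans (main.trans e3)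
  rw [ENNReal.le_div_iff_mul_le (Or.inl hc0) (Or.inl hcT)] at h4
  refine le_trans (le_of_eq ?_) h4
  rw [ENNReal.div_rpow_of_nonneg _ _ ha.le, ENNReal.div_rpow_of_nonneg _ _ hb.le, hc]
  calc (∫⁻ x, f x) ^ a * (∫⁻ x, g x) ^ b
      = ((∫⁻ x, f x) ^ a / M ^ a * M ^ a) * ((∫⁻ x, g x) ^ b / N ^ b * N ^ b) := by
        rw [ENNReal.div_mul_cancel hMa0 hMaT, ENNReal.div_mul_cancel hNb0 hNbT]
    _ = (∫⁻ x, f x) ^ a / M ^ a * ((∫⁻ x, g x) ^ b / N ^ b) * (M ^ a * N ^ b) := by ring

/-- One-dimensional Prekopa-Leindler inequality. -/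
theorem pl_one {f g h : ℝ → ℝ≥0∞} {a b : ℝ} (ha : 0 < a) (hb : 0 < b) (hab : a + b = 1)
    (hf : Measurable f) (hg : Measurable g) (hh : Measurable h)
    (H : ∀ x y, f x ^ a * g y ^ b ≤ h (a * x + b * y)) :
    (∫⁻ x, f x) ^ a * (∫⁻ x, g x) ^ b ≤ ∫⁻ x, h x := by
  have trunc : ∀ (u : ℝ → ℝ≥0∞), Measurable u →
      ∫⁻ x, u x = ⨆ n : ℕ, ∫⁻ x, min (u x) n := by
    intro u hu
    rw [← lintegral_iSup (fun n => hu.min measurable_const)
      (fun m n hmn x => min_le_min le_rfl (by exact_mod_cast hmn))]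
    congr 1
    ext x
    refine le_antisymm ?_ (iSup_le fun n => min_le_left _ _)
    rcases eq_or_ne (u x) ∞ with hx | hx
    · rw [hx]
      simp only [min_eq_right le_top]
      rw [ENNReal.iSup_natCast]
    · obtain ⟨n, hn⟩ := ENNReal.exists_nat_gt hx
      exact le_iSup_of_le n (le_of_eq (min_eq_left hn.le).symm)
  have hpow : ∀ (u : ℕ → ℝ≥0∞) {c : ℝ}, 0 < c → (⨆ n, u n) ^ c = ⨆ n, (u n) ^ c := by
    intro u c hc
    exact (ENNReal.orderIsoRpow c hc).map_iSup u
  rw [trunc f hf, trunc g hg, hpow _ ha, hpow _ hb, ENNReal.iSup_mul]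
  refine iSup_le fun n => ?_
  rw [ENNReal.mul_iSup]
  refine iSup_le fun m => ?_
  refine pl_one_bdd ha hb hab (hf.min measurable_const) (hg.min measurable_const) hh ?_ ?_ ?_
  · exact ne_top_of_le_ne_top (ENNReal.natCast_ne_top n) (iSup_le fun x => min_le_right _ _)
  · exact ne_top_of_le_ne_top (ENNReal.natCast_ne_top m) (iSup_le fun x => min_le_right _ _)
  · intro x y
    refine le_trans ?_ (H x y)
    gcongr
    · exact min_le_left _ _
    · exact min_le_left _ _

end Pool.H55.BM
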