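import Pool.Agent.H55.BM.One

/-!
# The Prekopa-Leindler and Brunn-Minkowski inequalities in `Fin n → ℝ`
-/

namespace Pool.H55.BM

open MeasureTheory Set
open scoped ENNReal Pointwise

/-- Prekopa-Leindler inequality in dimension `n`. -/
theorem prekopa_leindler {a b : ℝ} (ha : 0 < a) (hb : 0 < b) (hab : a + b = 1) (n : ℕ)
    {f g h : (Fin n → ℝ) → ℝ≥0∞}
    (hf : Measurable f) (hg : Measurable g) (hh : Measurable h)
    (H : ∀ x y, f x ^ a * g y ^ b ≤ h (a • x + b • y)) :
    (∫⁻ x, f x) ^ a * (∫⁻ x, g x) ^ b ≤ ∫⁻ x, h x := by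
  induction n with
  | zero =>
    have e : ∀ u : (Fin 0 → ℝ) → ℝ≥0∞, ∫⁻ x, u x = u default := by
      intro u
      rw [Measure.volume_pi_eq_dirac default, lintegral_dirac]
    rw [e, e, e]
    have := H default default
    rwa [show a • (default : Fin 0 → ℝ) + b • default = default from Subsingleton.elim _ _] at this
  | succ n ih =>
    let E := MeasurableEquiv.piFinSuccAbove (fun _ : Fin (n + 1) => ℝ) 0
    have hE : MeasurePreserving E := volume_preserving_piFinSuccAbove (fun _ : Fin (n + 1) => ℝ) 0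
    have hEs : ∀ (s : ℝ) (y : Fin n → ℝ), E.symm (s, y) = Fin.cons s y := fun s y =>
      Fin.insertNth_zero' s y
    have key : ∀ u : (Fin (n + 1) → ℝ) → ℝ≥0∞, Measurable u →
        ∫⁻ x, u x = ∫⁻ s : ℝ, ∫⁻ y : Fin n → ℝ, u (Fin.cons s y) := by
      intro u hu
      have h1 : ∫⁻ x, u x = ∫⁻ p : ℝ × (Fin n → ℝ), u (E.symm p) := by
        rw [← hE.symm.lintegral_comp hu]
      rw [h1, Measure.volume_eq_prod, lintegral_prod]
      · simp_rw [hEs]
      · exact (hu.comp E.symm.measurable).aemeasurable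
    have mcons : Measurable (fun p : ℝ × (Fin n → ℝ) => (Fin.cons p.1 p.2 : Fin (n + 1) → ℝ)) := by
      have := E.symm.measurable
      have e : (E.symm : ℝ × (Fin n → ℝ) → Fin (n + 1) → ℝ) = fun p => Fin.cons p.1 p.2 :=
        funext fun p => hEs p.1 p.2
      rwa [e] at this
    have msec : ∀ u : (Fin (n + 1) → ℝ) → ℝ≥0∞, Measurable u →
        ∀ s : ℝ, Measurable fun y : Fin n → ℝ => u (Fin.cons s y) := fun u hu s =>
      hu.comp (mcons.comp measurable_prodMk_left)
    have mint : ∀ u : (Fin (n + 1) → ℝ) → ℝ≥0∞, Measurable u →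
        Measurable fun s : ℝ => ∫⁻ y : Fin n → ℝ, u (Fin.cons s y) := fun u hu =>
      (hu.comp mcons).lintegral_prod_right'
    rw [key f hf, key g hg, key h hh]
    refine pl_one ha hb hab (mint f hf) (mint g hg) (mint h hh) fun s t => ?_
    refine ih (msec f hf s) (msec g hg t) (msec h hh _) fun x y => ?_
    refine (H _ _).trans (le_of_eq ?_)
    congr 1
    ext i
    refine Fin.cases ?_ (fun j => ?_) i <;> simp

end Pool.H55.BM
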