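import Pool.Agent.H55.BM.Char

/-!
# Symmetries of Brownian motion, uniqueness in law, independence of increments

`uniq`: two measures on `ℝ → ℝ` with the product sigma-algebra agree if their finite dimensional
marginals agree (`MeasureTheory.Measure.pi`-system of cylinders, see `IsProjectiveLimit.unique`,
or `ProbabilityTheory` file `FiniteDimensionalLaws`); a Gaussian law is determined by mean and
covariance.
`shift`, `reflect`, `neg`, `scale`: `of_gaussian` (`IsGaussianProcess.of_isGaussianProcess`,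
`comp_right`, `smul`).
`indep'`: `IsGaussianProcess.indepFun_of_covariance_eq_zero`.
-/

open MeasureTheory ProbabilityTheory Filter Topology Set
open scoped ENNReal NNReal

namespace Pool.Agent.H55.BM

open Pool.Agent.H37.DL

variable {Ω : Type*} [MeasurableSpace Ω] {P : Measure Ω} [IsProbabilityMeasure P]
  {b : Ω → ℝ → ℝ}

omit [IsProbabilityMeasure P] in
/-- a process made of combinations of two values of a Gaussian process -/
theorem sym_two {S T : Type*} {X : T → Ω → ℝ} (hX : IsGaussianProcess X P) (Y : S → Ω → ℝ)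
    (h : ∀ s, ∃ (c d : ℝ) (x y : T), ∀ ω, Y s ω = c * X x ω + d * X y ω) :
    IsGaussianProcess Y P := by
  classical
  refine hX.of_isGaussianProcess fun s => ?_
  obtain ⟨c, d, x, y, h⟩ := h s
  refine ⟨{x, y},
    { toFun := fun u => c * u ⟨x, by simp⟩ + d * u ⟨y, by simp⟩
      map_add' := fun u v => by simp; ring
      map_smul' := fun r u => by simp; ring }, fun ω => ?_⟩
  rw [h ω]
  simp

theorem sym_memLp (hb : IsBM P b) (x : ℝ) : MemLp (fun ω => b ω x) 2 P :=
  ((gaussian hb).hasGaussianLaw_eval x).memLp_two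

theorem sym_cov (hb : IsBM P b) (c d c' d' x y z w : ℝ) :
    cov[fun ω => c * b ω x + d * b ω y, fun ω => c' * b ω z + d' * b ω w; P] =
      c * c' * K x z + c * d' * K x w + d * c' * K y z + d * d' * K y w := by
  have h1 : ∀ (c x : ℝ), MemLp (fun ω => c * b ω x) 2 P := fun c x => (sym_memLp hb x).const_mul c
  have h2 : (fun ω => c * b ω x + d * b ω y) = (fun ω => c * b ω x) + (fun ω => d * b ω y) := rfl
  have h3 : (fun ω => c' * b ω z + d' * b ω w) = (fun ω => c' * b ω z) + (fun ω => d' * b ω w) := rfl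
  rw [h2, h3, covariance_add_left (h1 _ _) (h1 _ _) ((h1 _ _).add (h1 _ _)),
    covariance_add_right (h1 _ _) (h1 _ _) (h1 _ _), covariance_add_right (h1 _ _) (h1 _ _) (h1 _ _)]
  simp only [covariance_const_mul_left, covariance_const_mul_right, cov hb]
  ring

theorem sym_mean (hb : IsBM P b) (c d x y : ℝ) :
    ∫ ω, (c * b ω x + d * b ω y) ∂P = 0 := by
  have h1 : ∀ (c x : ℝ), Integrable (fun ω => c * b ω x) P := fun c x =>
    ((sym_memLp hb x).const_mul c).integrable (by norm_num)
  rw [integral_add (h1 _ _) (h1 _ _), integral_const_mul, integral_const_mul, mean hb, mean hb]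
  ring

/-- an affine change of a Brownian motion -/
theorem sym_of (hb : IsBM P b) (Y : Ω → ℝ → ℝ) (c : ℝ) (u : ℝ → ℝ) (v : ℝ)
    (hu : Continuous u) (hY : ∀ ω x, Y ω x = c * b ω (u x) + (-c) * b ω v) (h0 : u 0 = v)
    (hK : ∀ x y, c ^ 2 * (-|u x - u y| + |u x - v| + |v - u y|) = K x y) : IsBM P Y := by
  have hYf : ∀ x, (fun ω => Y ω x) = fun ω => c * b ω (u x) + (-c) * b ω v := by
    intro x; ext ω; exact hY ω x
  refine of_gaussian ?_ ?_ ?_ ?_ ?_ ?_
  · intro x
    rw [hYf]
    exact ((hb.meas _).const_mul _).add ((hb.meas _).const_mul _)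
  · intro ω
    have : Y ω = fun x => c * b ω (u x) + (-c) * b ω v := by ext x; exact hY ω x
    rw [this]
    exact (((hb.cont ω).comp hu).const_mul c).add continuous_const
  · intro ω
    rw [hY, h0]; ring
  · refine sym_two (gaussian hb) _ fun x => ⟨c, -c, u x, v, fun ω => hY ω x⟩
  · intro x
    rw [hYf]
    exact sym_mean hb _ _ _ _
  · intro x y
    rw [hYf, hYf, sym_cov hb, ← hK x y]
    unfold K
    rw [sub_self, abs_zero]
    ring

theorem shift (hb : IsBM P b) (c : ℝ) : IsBM P fun ω x => b ω (c + x) - b ω c := by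
  refine sym_of hb _ 1 (fun x => c + x) c (by fun_prop) (fun ω x => by ring) (by ring) ?_
  intro x y
  unfold K
  have e1 : c + x - (c + y) = x - y := by ring
  have e2 : c + x - c = x := by ring
  have e3 : c - (c + y) = -y := by ring
  rw [e1, e2, e3, abs_neg]
  ring

theorem reflect (hb : IsBM P b) : IsBM P fun ω x => b ω (-x) := by
  refine sym_of hb _ 1 (fun x => -x) 0 (by fun_prop) (fun ω x => by rw [hb.zero]; ring) (by ring) ?_
  intro x y
  unfold K
  have e1 : -x - -y = -(x - y) := by ring
  have e2 : -x - 0 = -x := by ring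
  have e3 : 0 - -y = y := by ring
  rw [e1, e2, e3, abs_neg, abs_neg]
  ring

theorem neg (hb : IsBM P b) : IsBM P fun ω x => -b ω x := by
  refine sym_of hb _ (-1) (fun x => x) 0 (by fun_prop) (fun ω x => by rw [hb.zero]; ring) (by ring) ?_
  intro x y
  unfold K
  have e2 : x - 0 = x := by ring
  have e3 : 0 - y = -y := by ring
  rw [e2, e3, abs_neg]
  ring

theorem scale (hb : IsBM P b) {c : ℝ} (hc : 0 < c) :
    IsBM P fun ω x => c⁻¹ * b ω (c ^ 2 * x) := by
  refine sym_of hb _ c⁻¹ (fun x => c ^ 2 * x) 0 (by fun_prop) (fun ω x => by rw [hb.zero]; ring)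
    (by ring) ?_
  intro x y
  unfold K
  have e1 : c ^ 2 * x - c ^ 2 * y = c ^ 2 * (x - y) := by ring
  have e2 : c ^ 2 * x - 0 = c ^ 2 * x := by ring
  have e3 : 0 - c ^ 2 * y = c ^ 2 * (-y) := by ring
  rw [e1, e2, e3, abs_mul, abs_mul, abs_mul, abs_neg, abs_of_pos (by positivity : 0 < c ^ 2)]
  field_simp
  ring

/-- independence of two families of increments-like combinations -/
theorem sym_indep (hb : IsBM P b) {S T : Type*} (X : S → Ω → ℝ) (Y : T → Ω → ℝ)
    (hX : ∀ s, ∃ c d x y : ℝ, ∀ ω, X s ω = c * b ω x + d * b ω y)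
    (hY : ∀ s, ∃ c d x y : ℝ, ∀ ω, Y s ω = c * b ω x + d * b ω y)
    (h : ∀ s t, cov[X s, Y t; P] = 0) :
    IndepFun (fun ω s => X s ω) (fun ω t => Y t ω) P := by
  have hm : ∀ (f : Ω → ℝ), (∃ c d x y : ℝ, ∀ ω, f ω = c * b ω x + d * b ω y) → Measurable f := by
    rintro f ⟨c, d, x, y, hf⟩
    have : f = fun ω => c * b ω x + d * b ω y := by ext ω; exact hf ω
    rw [this]
    exact ((hb.meas _).const_mul _).add ((hb.meas _).const_mul _)
  refine IsGaussianProcess.indepFun_of_covariance_eq_zero ?_ (fun s => (hm _ (hX s)).aemeasurable)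
    (fun t => (hm _ (hY t)).aemeasurable) h
  refine sym_two (gaussian hb) _ ?_
  rintro (s | t)
  · exact hX s
  · exact hY t

theorem sym_cov_incr (hb : IsBM P b) (x y z w : ℝ) :
    cov[fun ω => b ω x - b ω y, fun ω => b ω z - b ω w; P] =
      -|x - z| + |x - w| + |y - z| - |y - w| := by
  have h := sym_cov hb 1 (-1) 1 (-1) x y z w
  have e1 : (fun ω => 1 * b ω x + -1 * b ω y) = fun ω => b ω x - b ω y := by ext ω; ring
  have e2 : (fun ω => 1 * b ω z + -1 * b ω w) = fun ω => b ω z - b ω w := by ext ω; ring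
  rw [e1, e2] at h
  rw [h]
  unfold K
  ring

/-- the increments to the right of `s` are independent of those to the left -/
theorem indep (hb : IsBM P b) (s : ℝ) :
    IndepFun (fun ω (x : Set.Ici s) => b ω x - b ω s) (fun ω (x : Set.Iic s) => b ω x - b ω s)
      P := by
  refine sym_indep hb (fun (x : Set.Ici s) ω => b ω x - b ω s)
    (fun (x : Set.Iic s) ω => b ω x - b ω s) ?_ ?_ ?_
  · exact fun x => ⟨1, -1, x, s, fun ω => by ring⟩
  · exact fun x => ⟨1, -1, x, s, fun ω => by ring⟩
  · rintro ⟨x, hx⟩ ⟨y, hy⟩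
    rw [Set.mem_Ici] at hx
    rw [Set.mem_Iic] at hy
    rw [sym_cov_incr hb, sub_self, abs_zero, abs_of_nonneg (by linarith), abs_of_nonneg (by linarith),
      abs_of_nonneg (by linarith)]
    ring

/-- `b y - b x` (`x ≤ y`) is independent of the increments outside of `[x, y]` -/
theorem indep_middle (hb : IsBM P b) {x y : ℝ} (hxy : x ≤ y) :
    IndepFun (fun ω => b ω y - b ω x)
      (fun ω (p : Set.Iic x ⊕ Set.Ici y) =>
        Sum.elim (fun z : Set.Iic x => b ω z - b ω x) (fun z : Set.Ici y => b ω z - b ω y) p)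
      P := by
  have h := sym_indep hb (fun (_ : Unit) ω => b ω y - b ω x)
    (fun (p : Set.Iic x ⊕ Set.Ici y) ω =>
        Sum.elim (fun z : Set.Iic x => b ω z - b ω x) (fun z : Set.Ici y => b ω z - b ω y) p)
    (fun _ => ⟨1, -1, y, x, fun ω => by ring⟩) ?_ ?_
  · exact h.comp (φ := fun u : Unit → ℝ => u ()) (ψ := id) (measurable_pi_apply _) measurable_id
  · rintro (z | z)
    · exact ⟨1, -1, z, x, fun ω => by simp; ring⟩
    · exact ⟨1, -1, z, y, fun ω => by simp; ring⟩
  · rintro _ (⟨z, hz⟩ | ⟨z, hz⟩)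
    · simp only [Sum.elim_inl]
      rw [Set.mem_Iic] at hz
      rw [sym_cov_incr hb, sub_self, abs_zero, abs_of_nonneg (by linarith), 
        abs_of_nonneg (by linarith), abs_of_nonneg (by linarith)]
      ring
    · simp only [Sum.elim_inr]
      rw [Set.mem_Ici] at hz
      rw [sym_cov_incr hb, sub_self, abs_zero, abs_of_nonpos (by linarith), 
        abs_of_nonpos (by linarith), abs_of_nonpos (by linarith)]
      ring

/-- the bridge on `[0, 1]` is independent of `b 1` -/
theorem indep_bridge (hb : IsBM P b) :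
    IndepFun (fun ω => b ω 1) (fun ω (x : Set.Icc (0 : ℝ) 1) => b ω x - x * b ω 1) P := by
  have h := sym_indep hb (fun (_ : Unit) ω => b ω 1)
    (fun (x : Set.Icc (0 : ℝ) 1) ω => b ω x - x * b ω 1)
    (fun _ => ⟨1, 0, 1, 0, fun ω => by ring⟩) (fun x => ⟨1, -x, x, 1, fun ω => by ring⟩) ?_
  · exact h.comp (φ := fun u : Unit → ℝ => u ()) (ψ := id) (measurable_pi_apply _) measurable_id
  · rintro _ ⟨x, hx0, hx1⟩
    have h := sym_cov hb 1 0 1 (-x) 1 0 x 1
    have e1 : (fun ω => 1 * b ω 1 + 0 * b ω 0) = fun ω => b ω 1 := by ext ω; ring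
    have e2 : (fun ω => 1 * b ω x + (-x) * b ω 1) = fun ω => b ω x - x * b ω 1 := by ext ω; ring
    rw [e1, e2] at h
    simp only
    rw [h]
    unfold K
    rw [abs_of_nonneg hx0, abs_of_nonneg (by linarith : (0 : ℝ) ≤ 1 - x), sub_self, abs_zero, abs_one]
    ring

/-- the increments over the intervals `[j, j + 1]` are independent -/
theorem iIndep_blocks (hb : IsBM P b) :
    iIndepFun (fun (j : ℕ) ω (x : Set.Icc (0 : ℝ) 1) => b ω (j + x) - b ω j) P := by
  refine IsGaussianProcess.iIndepFun_of_covariance_eq_zero (S := fun _ => Set.Icc (0 : ℝ) 1)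
    (X := fun (j : ℕ) (x : Set.Icc (0 : ℝ) 1) ω => b ω (j + x) - b ω j) ?_ ?_ ?_
  · exact sym_two (gaussian hb) _ fun p => ⟨1, -1, p.1 + p.2, p.1, fun ω => by ring⟩
  · exact fun j x => ((hb.meas _).sub (hb.meas _)).aemeasurable
  · rintro i j hij ⟨x, hx0, hx1⟩ ⟨y, hy0, hy1⟩
    rw [sym_cov_incr hb]
    rcases lt_or_gt_of_ne hij with h | h
    · have h' : (i : ℝ) + 1 ≤ j := by exact_mod_cast h
      simp only
      rw [abs_of_nonpos (by linarith), abs_of_nonpos (by linarith), abs_of_nonpos (by linarith), 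
        abs_of_nonpos (by linarith)]
      ring
    · have h' : (j : ℝ) + 1 ≤ i := by exact_mod_cast h
      simp only
      rw [abs_of_nonneg (by linarith), abs_of_nonneg (by linarith), abs_of_nonneg (by linarith), 
        abs_of_nonneg (by linarith)]
      ring

theorem sym_fdd {Ω' : Type*} [MeasurableSpace Ω'] {P' : Measure Ω'} [IsProbabilityMeasure P']
    {b' : Ω' → ℝ → ℝ} (hb : IsBM P b) (hb' : IsBM P' b') (I : Finset ℝ) :
    P.map (fun ω => I.restrict (fun x => b ω x)) = P'.map (fun ω => I.restrict (fun x => b' ω x)) := by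
  have hm : Measurable fun ω => I.restrict (fun x => b ω x) :=
    measurable_pi_lambda _ fun i => hb.meas i
  have hm' : Measurable fun ω => I.restrict (fun x => b' ω x) :=
    measurable_pi_lambda _ fun i => hb'.meas i
  have hG := (gaussian hb)
  have hG' := (gaussian hb')
  apply (MeasurableEquiv.toLp 2 (_ → ℝ)).map_measurableEquiv_injective
  rw [MeasurableEquiv.coe_toLp, ← PiLp.coe_symm_continuousLinearEquiv 2 ℝ]
  have i1 := (hG.hasGaussianLaw I).isGaussian_map
  have i2 := (hG'.hasGaussianLaw I).isGaussian_map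
  apply IsGaussian.ext
  · rw [integral_map, integral_map, integral_map, integral_map]
    · simp only [id_eq]
      rw [ContinuousLinearEquiv.integral_comp_comm, ContinuousLinearEquiv.integral_comp_comm]
      congr 1
      ext i
      rw [eval_integral, eval_integral]
      · have h1 := mean hb i
        have h2 := mean hb' i
        simp only [Finset.restrict]
        rw [h1, h2]
      · exact fun j => (hG'.hasGaussianLaw_eval _).integrable
      · exact fun j => (hG.hasGaussianLaw_eval _).integrable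
    any_goals fun_prop
    · exact hm'.aemeasurable
    · exact hm.aemeasurable
  · rw [← ContinuousLinearMap.toBilinForm_inj]
    refine LinearMap.BilinForm.ext_of_isSymm isPosSemidef_covarianceBilin.isSymm
      isPosSemidef_covarianceBilin.isSymm fun x ↦ ?_
    simp only [ContinuousLinearMap.toBilinForm_apply]
    rw [PiLp.coe_symm_continuousLinearEquiv, covarianceBilin_apply_pi, covarianceBilin_apply_pi]
    · congrm ∑ i, ∑ j, _ * ?_
      rw [covariance_map, covariance_map]
      · exact (cov hb i j).trans (cov hb' i j).symm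
      any_goals exact Measurable.aestronglyMeasurable (by fun_prop)
      · exact hm'.aemeasurable
      · exact hm.aemeasurable
    · exact fun i ↦ ((hG'.hasGaussianLaw I).isGaussian_map.hasGaussianLaw_id.eval i).memLp_two
    · exact fun i ↦ ((hG.hasGaussianLaw I).isGaussian_map.hasGaussianLaw_id.eval i).memLp_two

theorem uniq {Ω' : Type*} [MeasurableSpace Ω'] {P' : Measure Ω'} [IsProbabilityMeasure P']
    {b' : Ω' → ℝ → ℝ} (hb : IsBM P b) (hb' : IsBM P' b') : P.map b = P'.map b' := by
  have h1 := isProjectiveLimit_map (P := P) (X := fun x ω => b ω x)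
    (measurable_pi_lambda _ fun x => hb.meas x).aemeasurable
  have h2 := isProjectiveLimit_map (P := P') (X := fun x ω => b' ω x)
    (measurable_pi_lambda _ fun x => hb'.meas x).aemeasurable
  simp_rw [sym_fdd hb hb'] at h1
  exact h1.unique h2

end Pool.Agent.H55.BM
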